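import Mathlib

set_option autoImplicit false

namespace Pool.Agent.H46.Rate

/-- Rational approximations with large denominators. -/
theorem exists_approx_large (θ : ℝ) (hθ : Irrational θ) (B : ℕ) :
    ∃ q : ℚ, |θ - q| ≤ 1 / (q.den : ℝ) ^ 2 ∧ B < q.den := by
  classical
  -- a positive lower bound for `|k θ - m|`, `1 ≤ k ≤ B`
  have h1 : ∃ δ : ℝ, 0 < δ ∧ ∀ k : ℕ, 0 < k → k ≤ B → ∀ m : ℤ, δ ≤ |(k : ℝ) * θ - m| := by
    induction B with
    | zero =>
      refine ⟨1, one_pos, fun k h1 h2 => ?_⟩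
      omega
    | succ B ih =>
      obtain ⟨δ, hδ, h⟩ := ih
      have hirr : Irrational (((B + 1 : ℕ) : ℝ) * θ) := by
        rw [mul_comm]
        exact hθ.mul_natCast (by omega)
      have hpos : 0 < |((B + 1 : ℕ) : ℝ) * θ - round (((B + 1 : ℕ) : ℝ) * θ)| := by
        rw [abs_pos, sub_ne_zero]
        exact hirr.ne_int _
      refine ⟨min δ |((B + 1 : ℕ) : ℝ) * θ - round (((B + 1 : ℕ) : ℝ) * θ)|, lt_min hδ hpos, ?_⟩
      intro k hk hkB m
      rcases Nat.lt_or_ge k (B + 1) with h2 | h2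
      · exact (min_le_left _ _).trans (h k hk (by omega) m)
      · have h3 : k = B + 1 := by omega
        subst h3
        exact (min_le_right _ _).trans (round_le _ m)
  obtain ⟨δ, hδ, h⟩ := h1
  obtain ⟨n, hn⟩ := exists_nat_gt (1 / δ)
  have hn0 : 0 < n := by
    have : (0 : ℝ) < n := lt_trans (by positivity) hn
    exact_mod_cast this
  obtain ⟨q, hq1, hq2⟩ := Real.exists_rat_abs_sub_le_and_den_le θ hn0
  have hden : (0 : ℝ) < q.den := by exact_mod_cast q.den_pos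
  refine ⟨q, hq1.trans ?_, ?_⟩
  · apply one_div_le_one_div_of_le (by positivity)
    have h2 : (q.den : ℝ) ≤ n := by exact_mod_cast hq2
    nlinarith
  · by_contra hcon
    push Not at hcon
    have h2 := h q.den q.den_pos hcon q.num
    have h3 : |(q.den : ℝ) * θ - q.num| = q.den * |θ - q| := by
      have h4 : (q : ℝ) * q.den = q.num := by
        exact_mod_cast congr_arg (Rat.cast : ℚ → ℝ) (Rat.mul_den_eq_num q)
      have h5 : (q.den : ℝ) * θ - q.num = q.den * (θ - q) := by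
        rw [mul_sub, mul_comm (q.den : ℝ) (q : ℝ), h4]
      rw [h5, abs_mul, abs_of_pos hden]
    rw [h3] at h2
    have h5 : (q.den : ℝ) * |θ - q| ≤ q.den * (1 / ((n + 1) * q.den)) :=
      mul_le_mul_of_nonneg_left hq1 hden.le
    have h6 : (q.den : ℝ) * (1 / ((n + 1) * q.den)) = 1 / (n + 1) := by
      field_simp
    have h7 : (1 : ℝ) / (n + 1) < δ := by
      rw [div_lt_iff₀ (by positivity)]
      rw [div_lt_iff₀ hδ] at hn
      nlinarith
    linarith

/-- Inhomogeneous approximation in dimension one. -/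
theorem khinchin (θ γ : ℝ) (hθ : Irrational θ) (N : ℕ) :
    ∃ n : ℕ, N ≤ n ∧ 0 < n ∧ ∃ q : ℤ, |(n : ℝ) * θ - q - γ| ≤ 5 / n := by
  obtain ⟨r, hr, hN⟩ := exists_approx_large θ hθ N
  set Q : ℕ := r.den with hQ
  set P : ℤ := r.num with hP
  have hQ0 : 0 < Q := r.den_pos
  have hQR : (0 : ℝ) < Q := by exact_mod_cast hQ0
  set M : ℤ := round ((Q : ℝ) * γ) with hM
  have hMγ : |(Q : ℝ) * γ - M| ≤ 1 / 2 := abs_sub_round _
  -- inverse of `P` modulo `Q`
  have hcop : IsCoprime P (Q : ℤ) := by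
    rw [Int.isCoprime_iff_gcd_eq_one]
    have := r.reduced
    rw [Int.gcd_eq_natAbs]
    simpa using this
  obtain ⟨a, b, hab⟩ := hcop
  have hQZ : (0 : ℤ) < Q := by exact_mod_cast hQ0
  set m : ℤ := (a * M) % Q with hm
  have hm0 : 0 ≤ m := Int.emod_nonneg _ hQZ.ne'
  have hm1 : m < Q := Int.emod_lt_of_pos _ hQZ
  have hdiv : ∃ q : ℤ, ((Q : ℤ) + m) * P = M + q * Q := by
    have h1 : m = a * M - Q * (a * M / Q) := by
      rw [hm, Int.emod_def]
    refine ⟨P - b * M - (a * M / Q) * P, ?_⟩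
    rw [h1]
    linear_combination M * hab
  obtain ⟨q, hq⟩ := hdiv
  have hn : ((Q + m.toNat : ℕ) : ℤ) = Q + m := by
    push_cast
    rw [Int.toNat_of_nonneg hm0]
  refine ⟨Q + m.toNat, by omega, by omega, q, ?_⟩
  set n : ℕ := Q + m.toNat with hndef
  have hnR : (n : ℝ) = (Q : ℝ) + (m : ℝ) := by exact_mod_cast hn
  have hn0 : (0 : ℝ) < n := by
    have : 0 < n := by omega
    exact_mod_cast this
  have hn2 : (n : ℝ) ≤ 2 * Q := by
    rw [hnR]
    have : (m : ℝ) ≤ Q := by exact_mod_cast hm1.le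
    linarith
  have hrR : (r : ℝ) * Q = P := by
    exact_mod_cast congr_arg (Rat.cast : ℚ → ℝ) (Rat.mul_den_eq_num r)
  have hqR : (n : ℝ) * P = M + q * Q := by
    rw [hnR]
    exact_mod_cast hq
  have hkey : (n : ℝ) * θ - q - γ = n * (θ - r) + (M - Q * γ) / Q := by
    field_simp
    have h1 : (n : ℝ) * (r * Q) = M + q * Q := by rw [hrR, hqR]
    linear_combination h1
  rw [hkey]
  have h1 : |(n : ℝ) * (θ - r)| ≤ 2 / Q := by
    rw [abs_mul, abs_of_pos hn0]
    calc (n : ℝ) * |θ - r| ≤ (2 * Q) * (1 / (Q : ℝ) ^ 2) :=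
          mul_le_mul hn2 hr (abs_nonneg _) (by positivity)
      _ = 2 / Q := by field_simp
  have h2 : |((M : ℝ) - Q * γ) / Q| ≤ (1 / 2) / Q := by
    rw [abs_div, abs_of_pos hQR, abs_sub_comm]
    exact div_le_div_of_nonneg_right hMγ hQR.le
  have h3 : 2 / (Q : ℝ) + (1 / 2) / Q = (5 / 2) / Q := by ring
  have h4 : (5 / 2) / (Q : ℝ) ≤ 5 / n := by
    rw [div_le_div_iff₀ hQR hn0]
    linarith
  calc |(n : ℝ) * (θ - r) + (M - Q * γ) / Q| ≤ |(n : ℝ) * (θ - r)| + |((M : ℝ) - Q * γ) / Q| :=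
        abs_add_le _ _
    _ ≤ 2 / Q + (1 / 2) / Q := add_le_add h1 h2
    _ ≤ 5 / n := by rw [h3]; exact h4

end Pool.Agent.H46.Rate
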