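import Mathlib
import Pool.Agent.H46.UnitsNear
import Pool.Agent.H46.Rate.Khin

set_option autoImplicit false

namespace Pool.Agent.H46.Rate

open NumberField NumberField.InfinitePlace NumberField.Units
  NumberField.Units.dirichletUnitTheorem Module

variable {K : Type*} [Field K] [NumberField K]

/-- The logarithm of the absolute value of a unit at an embedding. -/
noncomputable def lam (φ : K →+* ℂ) (u : (𝓞 K)ˣ) : ℝ := Real.log ‖φ ((u : 𝓞 K) : K)‖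

theorem unit_ne (φ : K →+* ℂ) (u : (𝓞 K)ˣ) : φ ((u : 𝓞 K) : K) ≠ 0 := by simp

theorem norm_unit_pos (φ : K →+* ℂ) (u : (𝓞 K)ˣ) : 0 < ‖φ ((u : 𝓞 K) : K)‖ :=
  norm_pos_iff.mpr (unit_ne φ u)

theorem exp_lam (φ : K →+* ℂ) (u : (𝓞 K)ˣ) : Real.exp (lam φ u) = ‖φ ((u : 𝓞 K) : K)‖ :=
  Real.exp_log (norm_unit_pos φ u)

theorem lam_mul (φ : K →+* ℂ) (u v : (𝓞 K)ˣ) : lam φ (u * v) = lam φ u + lam φ v := by
  unfold lam
  rw [← Real.log_mul (norm_unit_pos φ u).ne' (norm_unit_pos φ v).ne', ← norm_mul, ← map_mul]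
  simp

theorem lam_one (φ : K →+* ℂ) : lam φ 1 = 0 := by
  unfold lam
  simp

theorem lam_inv (φ : K →+* ℂ) (u : (𝓞 K)ˣ) : lam φ u⁻¹ = -lam φ u := by
  have h := lam_mul φ u u⁻¹
  rw [mul_inv_cancel, lam_one] at h
  linarith

theorem lam_pow (φ : K →+* ℂ) (u : (𝓞 K)ˣ) (n : ℕ) : lam φ (u ^ n) = n * lam φ u := by
  induction n with
  | zero => simp [lam_one]
  | succ n ih => rw [pow_succ, lam_mul, ih]; push_cast; ring

theorem lam_zpow (φ : K →+* ℂ) (u : (𝓞 K)ˣ) (n : ℤ) : lam φ (u ^ n) = n * lam φ u := by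
  cases n with
  | ofNat n => simp [lam_pow]
  | negSucc n =>
    rw [zpow_negSucc, lam_inv, lam_pow]
    push_cast
    ring

theorem lam_sum (u : (𝓞 K)ˣ) : ∑ φ : K →+* ℂ, lam φ u = 0 := by
  have h := sum_embeddings K (fun v => Real.log (v ((u : 𝓞 K) : K)))
  rw [sum_mult_mul_log u] at h
  rw [← h]
  rfl

variable (hK : finrank ℚ K = 3) (ρ σ τ : K →+* ℂ) (hρσ : ρ ≠ σ) (hρτ : ρ ≠ τ) (hστ : σ ≠ τ)

include hK hρσ hρτ hστ

theorem univ_eq [DecidableEq (K →+* ℂ)] : (Finset.univ : Finset (K →+* ℂ)) = {ρ, σ, τ} := by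
  symm
  rw [← Finset.card_eq_iff_eq_univ, Embeddings.card K ℂ, hK]
  exact Finset.card_eq_three.mpr ⟨ρ, σ, τ, hρσ, hρτ, hστ, rfl⟩

theorem cases_emb (φ : K →+* ℂ) : φ = ρ ∨ φ = σ ∨ φ = τ := by
  classical
  have h := Finset.mem_univ φ
  rw [univ_eq hK ρ σ τ hρσ hρτ hστ] at h
  simpa using h

theorem sum_emb {A : Type*} [AddCommMonoid A] (f : (K →+* ℂ) → A) :
    ∑ φ, f φ = f ρ + (f σ + f τ) := by
  classical
  rw [univ_eq hK ρ σ τ hρσ hρτ hστ, Finset.sum_insert (by simp [hρσ, hρτ]),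
    Finset.sum_pair hστ]

omit hρσ hρτ in
theorem rational_of_eq (u : K) (h : σ u = τ u) : ∃ q : ℚ, u = algebraMap ℚ K q := by
  have hint : IsIntegral ℚ u := Algebra.IsIntegral.isIntegral u
  have h1 := finrank_mul_finrank ℚ (IntermediateField.adjoin ℚ {u}) K
  rw [hK] at h1
  have h2 : finrank ℚ (IntermediateField.adjoin ℚ {u}) ∣ 3 := Dvd.intro _ h1
  rcases (Nat.dvd_prime Nat.prime_three).mp h2 with h3 | h3
  · rw [IntermediateField.finrank_eq_one_iff] at h3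
    have h4 : u ∈ (⊥ : IntermediateField ℚ K) := by
      rw [← h3]
      exact IntermediateField.mem_adjoin_simple_self ℚ u
    rw [IntermediateField.mem_bot] at h4
    obtain ⟨q, hq⟩ := h4
    exact ⟨q, hq.symm⟩
  · exfalso
    apply hστ
    have htop : IntermediateField.adjoin ℚ {u} = ⊤ := by
      apply IntermediateField.eq_of_le_of_finrank_eq le_top
      rw [h3, IntermediateField.finrank_top', hK]
    have h1 : σ.toRatAlgHom = τ.toRatAlgHom :=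
      (Field.primitive_element_iff_algHom_eq_of_eval ℚ ℂ (fun x => IsAlgClosed.splits _) u
        σ.toRatAlgHom).mp htop τ.toRatAlgHom h
    exact RingHom.ext fun x => AlgHom.congr_fun h1 x

theorem lam_eq_zero_of_eq (u : (𝓞 K)ˣ) (h : σ ((u : 𝓞 K) : K) = τ ((u : 𝓞 K) : K))
    (φ : K →+* ℂ) : lam φ u = 0 := by
  obtain ⟨q, hq⟩ := rational_of_eq hK σ τ hστ _ h
  have h1 : ∀ ψ : K →+* ℂ, lam ψ u = Real.log |(q : ℝ)| := by
    intro ψ
    unfold lam
    rw [hq]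
    congr 1
    simp
  have h2 := lam_sum u
  rw [sum_emb hK ρ σ τ hρσ hρτ hστ, h1, h1, h1] at h2
  rw [h1]
  linarith

/-- Two units which are independent in the totally real case. -/
theorem exists_two_units (hreal : ∀ φ : K →+* ℂ, ComplexEmbedding.conjugate φ = φ) :
    ∃ e₁ e₂ : (𝓞 K)ˣ,
      lam ρ e₁ * (lam σ e₂ - lam τ e₂) - lam ρ e₂ * (lam σ e₁ - lam τ e₁) ≠ 0 := by
  classical
  obtain ⟨C₁, h₁⟩ := units_near K (fun φ => if φ = ρ then 2 else -1)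
    (fun φ => by rw [hreal]) (by
      rw [sum_emb hK ρ σ τ hρσ hρτ hστ, if_pos rfl, if_neg hρσ.symm, if_neg hρτ.symm]
      norm_num)
  obtain ⟨C₂, h₂⟩ := units_near K (fun φ => if φ = ρ then 0 else if φ = σ then 1 else -1)
    (fun φ => by rw [hreal]) (by
      rw [sum_emb hK ρ σ τ hρσ hρτ hστ, if_pos rfl, if_neg hρσ.symm, if_neg hρτ.symm, if_pos rfl,
        if_neg hστ.symm]
      norm_num)
  set C : ℝ := max (max C₁ C₂) 0 with hC
  have hC0 : 0 ≤ C := le_max_right _ _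
  have hC₁ : C₁ ≤ C := (le_max_left _ _).trans (le_max_left _ _)
  have hC₂ : C₂ ≤ C := (le_max_right _ _).trans (le_max_left _ _)
  obtain ⟨e₁, he₁⟩ := h₁ (3 * C + 1)
  obtain ⟨e₂, he₂⟩ := h₂ (3 * C + 1)
  refine ⟨e₁, e₂, ?_⟩
  have a1 := (he₁ ρ).trans hC₁
  have a2 := (he₁ σ).trans hC₁
  have a3 := (he₁ τ).trans hC₁
  have b1 := (he₂ ρ).trans hC₂
  have b2 := (he₂ σ).trans hC₂
  have b3 := (he₂ τ).trans hC₂
  simp only [if_neg hρσ.symm, if_neg hρτ.symm, if_neg hστ.symm, ↓reduceIte] at a1 a2 a3 b1 b2 b3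
  rw [abs_le] at a1 a2 a3 b1 b2 b3
  change -C ≤ lam ρ e₁ - _ ∧ lam ρ e₁ - _ ≤ C at a1
  change -C ≤ lam σ e₁ - _ ∧ lam σ e₁ - _ ≤ C at a2
  change -C ≤ lam τ e₁ - _ ∧ lam τ e₁ - _ ≤ C at a3
  change -C ≤ lam ρ e₂ - _ ∧ lam ρ e₂ - _ ≤ C at b1
  change -C ≤ lam σ e₂ - _ ∧ lam σ e₂ - _ ≤ C at b2
  change -C ≤ lam τ e₂ - _ ∧ lam τ e₂ - _ ≤ C at b3
  set x := lam ρ e₁
  set y := lam σ e₂ - lam τ e₂ with hy
  set z := lam ρ e₂
  set w := lam σ e₁ - lam τ e₁ with hw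
  have hx : 5 * C + 2 ≤ x := by linarith [a1.1]
  have hy' : 4 * C + 2 ≤ y := by linarith [b2.1, b3.2]
  have hz : |z| ≤ C := abs_le.mpr ⟨by linarith [b1.1], by linarith [b1.2]⟩
  have hw' : |w| ≤ 2 * C := abs_le.mpr ⟨by linarith [a2.1, a3.2], by linarith [a2.2, a3.1]⟩
  have h1 : z * w ≤ C * (2 * C) := (le_abs_self _).trans (by
    rw [abs_mul]
    exact mul_le_mul hz hw' (abs_nonneg _) hC0)
  have h2 : (5 * C + 2) * (4 * C + 2) ≤ x * y :=
    mul_le_mul hx hy' (by linarith) (by linarith)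
  have h3 : 0 < x * y - z * w := by nlinarith
  exact h3.ne'

/-- A unit which is not of absolute value one at a real embedding. -/
theorem exists_one_unit (hρ : ComplexEmbedding.conjugate ρ = ρ) :
    ∃ e : (𝓞 K)ˣ, lam ρ e ≠ 0 := by
  classical
  have hinv : Function.Involutive (ComplexEmbedding.conjugate : (K →+* ℂ) → (K →+* ℂ)) :=
    fun φ => ComplexEmbedding.involutive_conjugate K φ
  obtain ⟨C₁, h₁⟩ := units_near K (fun φ => if φ = ρ then 2 else -1)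
    (fun φ => by
      by_cases h : φ = ρ
      · rw [h, hρ]
      · rw [if_neg h, if_neg]
        intro h'
        apply h
        rw [← hinv φ, h', hρ]) (by
      rw [sum_emb hK ρ σ τ hρσ hρτ hστ, if_pos rfl, if_neg hρσ.symm, if_neg hρτ.symm]
      norm_num)
  obtain ⟨e, he⟩ := h₁ (|C₁| + 1)
  refine ⟨e, ?_⟩
  have h2 := he ρ
  simp only [↓reduceIte] at h2
  rw [abs_le] at h2
  have h3 := le_abs_self C₁
  have h4 : -C₁ ≤ lam ρ e - (|C₁| + 1) * 2 := h2.1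
  have : 0 < lam ρ e := by linarith [abs_nonneg C₁]
  exact this.ne'

end Pool.Agent.H46.Rate
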