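import Mathlib
import Pool.Agent.H46.Rate.Units

set_option autoImplicit false

namespace Pool.Agent.H46.Rate

open NumberField NumberField.InfinitePlace NumberField.Units
  NumberField.Units.dirichletUnitTheorem Module

variable {K : Type*} [Field K] [NumberField K]

/-- Units almost killing a form `c_σ σ + c_τ τ`, with control of their size. -/
def UnitRate (ρ σ τ : K →+* ℂ) (c : (K →+* ℂ) → ℂ) (s : ℝ) : Prop :=
  ∃ κ C : ℝ, 0 < κ ∧ 0 < C ∧ ∃ y : 𝓞 K, y ≠ 0 ∧ ∀ N : ℕ, ∃ n : ℕ, N ≤ n ∧ 0 < n ∧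
    ∃ u : (𝓞 K)ˣ, |s * lam ρ u - κ * n| ≤ C ∧ |lam σ u - lam τ u| ≤ C ∧
      ‖c σ * σ (((u : 𝓞 K) : K) * (y : K)) + c τ * τ (((u : 𝓞 K) : K) * (y : K))‖
        ≤ C / n * ‖σ ((u : 𝓞 K) : K)‖

theorem real_emb (φ : K →+* ℂ) (hφ : ComplexEmbedding.conjugate φ = φ) (x : K) :
    φ x = ((φ x).re : ℂ) := by
  have h1 : (starRingEnd ℂ) (φ x) = φ x := by
    rw [← ComplexEmbedding.conjugate_coe_eq, hφ]
  exact (Complex.conj_eq_iff_re.mp h1).symm

theorem sq_emb (φ : K →+* ℂ) (hφ : ComplexEmbedding.conjugate φ = φ) (v : (𝓞 K)ˣ) :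
    φ (((v ^ 2 : (𝓞 K)ˣ) : 𝓞 K) : K) = ((Real.exp (lam φ (v ^ 2)) : ℝ) : ℂ) := by
  have h1 : φ (((v ^ 2 : (𝓞 K)ˣ) : 𝓞 K) : K) = ((((φ ((v : 𝓞 K) : K)).re) ^ 2 : ℝ) : ℂ) := by
    push_cast
    rw [map_pow, ← real_emb φ hφ]
  rw [exp_lam, h1]
  congr 1
  rw [Complex.norm_real, Real.norm_eq_abs, abs_of_nonneg (sq_nonneg _)]

/-- A sign change. -/
theorem exists_sign (σ τ : K →+* ℂ) (hστ : σ ≠ τ)
    (hσ : ComplexEmbedding.conjugate σ = σ) (hτ : ComplexEmbedding.conjugate τ = τ)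
    (a b : ℝ) (ha : a ≠ 0) (hb : b ≠ 0) :
    ∃ y : 𝓞 K, y ≠ 0 ∧ ∃ r : ℝ, 0 < r ∧ (b : ℂ) * τ (y : K) = -(r : ℂ) * ((a : ℂ) * σ (y : K)) := by
  -- it is enough to have opposite signs
  have key : ∀ y : 𝓞 K, (b * (τ (y : K)).re) * (a * (σ (y : K)).re) < 0 →
      ∃ y : 𝓞 K, y ≠ 0 ∧ ∃ r : ℝ, 0 < r ∧ (b : ℂ) * τ (y : K) = -(r : ℂ) * ((a : ℂ) * σ (y : K)) := by
    intro y hy
    refine ⟨y, ?_, -((b * (τ (y : K)).re) / (a * (σ (y : K)).re)), ?_, ?_⟩
    · rintro rfl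
      simp at hy
    · rw [neg_pos]
      rcases mul_neg_iff.mp hy with ⟨h1, h2⟩ | ⟨h1, h2⟩
      · exact div_neg_of_pos_of_neg h1 h2
      · exact div_neg_of_neg_of_pos h1 h2
    · have h1 : a * (σ (y : K)).re ≠ 0 := right_ne_zero_of_mul hy.ne
      have h2 : (σ (y : K)).re ≠ 0 := right_ne_zero_of_mul h1
      rw [real_emb σ hσ, real_emb τ hτ, ← Complex.ofReal_mul, ← Complex.ofReal_mul,
        ← Complex.ofReal_neg, ← Complex.ofReal_mul]
      congr 1
      simp only [Complex.ofReal_re]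
      field_simp
  rcases lt_or_gt_of_ne (mul_ne_zero hb ha) with h | h
  · apply key 1
    simpa using h
  · -- an element separating the embeddings
    have hx : ∃ x : K, σ x ≠ τ x := by
      by_contra hcon
      push Not at hcon
      exact hστ (RingHom.ext hcon)
    obtain ⟨x, hx⟩ := hx
    have hne : (σ x).re ≠ (τ x).re := by
      intro h'
      apply hx
      rw [real_emb σ hσ, real_emb τ hτ, h']
    have hc : ∃ c : ℚ, ((σ x).re - c) * ((τ x).re - c) < 0 := by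
      rcases lt_or_gt_of_ne hne with h' | h'
      · obtain ⟨c, hc1, hc2⟩ := exists_rat_btwn h'
        exact ⟨c, mul_neg_of_neg_of_pos (by linarith) (by linarith)⟩
      · obtain ⟨c, hc1, hc2⟩ := exists_rat_btwn h'
        exact ⟨c, mul_neg_of_pos_of_neg (by linarith) (by linarith)⟩
    obtain ⟨c, hc⟩ := hc
    obtain ⟨m, hm⟩ := IsLocalization.exist_integer_multiples_of_finset (nonZeroDivisors ℤ) (S := ℚ)
      ({0} : Finset ℚ)
    -- clear denominators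
    have hint : IsAlgebraic ℤ (x - (c : K)) := by
      have h1 : IsAlgebraic ℚ (x - (c : K)) := Algebra.IsAlgebraic.isAlgebraic _
      exact (IsFractionRing.isAlgebraic_iff ℤ ℚ K).mpr h1
    obtain ⟨z, hz, hzint⟩ := hint.exists_integral_multiple
    have hzR : (0 : ℝ) < (z : ℝ) ^ 2 := by
      have : (z : ℝ) ≠ 0 := by exact_mod_cast hz
      positivity
    let y : 𝓞 K := ⟨z • (x - (c : K)), hzint⟩
    apply key y
    have h1 : ∀ φ : K →+* ℂ, (φ (y : K)).re = z * ((φ x).re - c) := by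
      intro φ
      have : (y : K) = (z : K) * (x - (c : K)) := by
        change z • (x - (c : K)) = _
        rw [zsmul_eq_mul]
      rw [this, map_mul, map_sub, map_intCast, map_ratCast]
      simp
    rw [h1, h1]
    have h2 : b * (z * ((τ x).re - c)) * (a * (z * ((σ x).re - c)))
        = (b * a) * z ^ 2 * (((σ x).re - c) * ((τ x).re - c)) := by ring
    rw [h2]
    exact mul_neg_of_pos_of_neg (mul_pos h hzR) hc

variable (hK : finrank ℚ K = 3) (ρ σ τ : K →+* ℂ) (hρσ : ρ ≠ σ) (hρτ : ρ ≠ τ) (hστ : σ ≠ τ)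

include hK hρσ hρτ hστ

theorem unit_rate_real (hreal : ∀ φ : K →+* ℂ, ComplexEmbedding.conjugate φ = φ)
    (c : (K →+* ℂ) → ℂ) (hc : ∀ φ, c (ComplexEmbedding.conjugate φ) = (starRingEnd ℂ) (c φ))
    (hσ : c σ ≠ 0) (hτ : c τ ≠ 0) (s : ℝ) (hs : s = 1 ∨ s = -1) : UnitRate ρ σ τ c s := by
  obtain ⟨e₁, e₂, hdet⟩ := exists_two_units hK ρ σ τ hρσ hρτ hστ hreal
  -- the coefficients are real
  have hcre : ∀ φ, c φ = ((c φ).re : ℂ) := by
    intro φ
    have h1 := hc φ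
    rw [hreal] at h1
    exact (Complex.conj_eq_iff_re.mp h1.symm).symm
  have hane : (c σ).re ≠ 0 := by
    intro h
    apply hσ
    rw [hcre σ, h, Complex.ofReal_zero]
  have hbne : (c τ).re ≠ 0 := by
    intro h
    apply hτ
    rw [hcre τ, h, Complex.ofReal_zero]
  obtain ⟨y, hy, r, hr, hyr⟩ := exists_sign σ τ hστ (hreal σ) (hreal τ) _ _ hane hbne
  rw [← hcre, ← hcre] at hyr
  set g : ℝ := Real.log r with hg
  -- the two basic units are squares
  set L₁ := lam ρ (e₁ ^ 2) with hL₁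
  set L₂ := lam ρ (e₂ ^ 2) with hL₂
  set M₁ := lam σ (e₁ ^ 2) - lam τ (e₁ ^ 2) with hM₁
  set M₂ := lam σ (e₂ ^ 2) - lam τ (e₂ ^ 2) with hM₂
  have hdet' : L₁ * M₂ - L₂ * M₁ ≠ 0 := by
    rw [hL₁, hL₂, hM₁, hM₂]
    simp only [lam_pow]
    intro h
    apply hdet
    push_cast at h
    linarith
  have hpow : ∀ (a b : ℤ) (φ : K →+* ℂ),
      lam φ ((e₁ ^ a * e₂ ^ b) ^ 2) = a * lam φ (e₁ ^ 2) + b * lam φ (e₂ ^ 2) := by
    intro a b φ
    simp only [lam_pow, lam_mul, lam_zpow]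
    push_cast
    ring
  have hrel : ∀ a b : ℤ, (a : ℝ) * M₁ + b * M₂ = 0 → a = 0 ∧ b = 0 := by
    intro a b hab
    have h1 : lam σ ((e₁ ^ a * e₂ ^ b) ^ 2) = lam τ ((e₁ ^ a * e₂ ^ b) ^ 2) := by
      rw [hpow, hpow]
      rw [hM₁, hM₂] at hab
      linarith
    have h2 : σ ((((e₁ ^ a * e₂ ^ b) ^ 2 : (𝓞 K)ˣ) : 𝓞 K) : K)
        = τ ((((e₁ ^ a * e₂ ^ b) ^ 2 : (𝓞 K)ˣ) : 𝓞 K) : K) := by
      rw [sq_emb σ (hreal σ), sq_emb τ (hreal τ), h1]
    have h3 := lam_eq_zero_of_eq hK ρ σ τ hρσ hρτ hστ _ h2 ρ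
    rw [hpow] at h3
    have ha : (a : ℝ) * (L₁ * M₂ - L₂ * M₁) = 0 := by
      linear_combination M₂ * h3 - L₂ * hab
    have hb : (b : ℝ) * (L₁ * M₂ - L₂ * M₁) = 0 := by
      linear_combination L₁ * hab - M₁ * h3
    constructor
    · exact_mod_cast (mul_eq_zero.mp ha).resolve_right hdet'
    · exact_mod_cast (mul_eq_zero.mp hb).resolve_right hdet'
  have hM₂0 : M₂ ≠ 0 := by
    intro h
    have := (hrel 0 1 (by rw [h]; simp)).2
    omega
  have hirr : Irrational (M₁ / M₂) := by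
    rintro ⟨q, hq⟩
    have h1 : (q.den : ℝ) * M₁ = q.num * M₂ := by
      have h2 : M₁ = q * M₂ := by rw [hq, div_mul_cancel₀ _ hM₂0]
      have h3 : (q : ℝ) * q.den = q.num := by
        exact_mod_cast congr_arg (Rat.cast : ℚ → ℝ) (Rat.mul_den_eq_num q)
      rw [h2, ← h3]
      ring
    have h2 := (hrel q.den (-q.num) (by push_cast; linarith)).1
    exact q.den_ne_zero (by exact_mod_cast h2)
  -- the sign
  set Δ : ℝ := (L₁ * M₂ - L₂ * M₁) / M₂ with hΔ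
  have hΔ0 : Δ ≠ 0 := div_ne_zero hdet' hM₂0
  have hδ : ∃ δ : ℤ, (δ = 1 ∨ δ = -1) ∧ s * δ * Δ = |Δ| := by
    rcases le_total 0 Δ with h | h
    · rw [abs_of_nonneg h]
      rcases hs with rfl | rfl
      · exact ⟨1, Or.inl rfl, by norm_num⟩
      · exact ⟨-1, Or.inr rfl, by norm_num⟩
    · rw [abs_of_nonpos h]
      rcases hs with rfl | rfl
      · exact ⟨-1, Or.inr rfl, by norm_num⟩
      · exact ⟨1, Or.inl rfl, by norm_num⟩
  obtain ⟨δ, hδ1, hδ2⟩ := hδ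
  have hδsq : (δ : ℝ) * δ = 1 := by
    rcases hδ1 with rfl | rfl <;> norm_num
  have hδabs : |(δ : ℝ)| = 1 := by
    rcases hδ1 with rfl | rfl <;> norm_num
  have hsabs : |s| = 1 := by
    rcases hs with rfl | rfl <;> norm_num
  set γ : ℝ := δ * g / M₂ with hγ
  set A : ℝ := ‖c σ * σ (y : K)‖ with hA
  refine ⟨|Δ|, |L₂| * (|γ| + 5) + (|g| + 5 * |M₂|) + A * (2 * (5 * |M₂|)) + 1, abs_pos.mpr hΔ0,
    by positivity, y, hy, fun N => ?_⟩
  obtain ⟨n, hn, hn0, q, hq⟩ := khinchin (M₁ / M₂) γ hirr (max N ⌈5 * |M₂|⌉₊)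
  have hnR : (0 : ℝ) < n := by exact_mod_cast hn0
  have hn1 : (1 : ℝ) ≤ n := by exact_mod_cast hn0
  have hnM : 5 * |M₂| ≤ n := by
    refine (Nat.le_ceil _).trans ?_
    exact_mod_cast (le_max_right _ _).trans hn
  set η : ℝ := (n : ℝ) * (M₁ / M₂) - q - γ with hη
  have hη5 : |η| ≤ 5 := by
    refine hq.trans ?_
    rw [div_le_iff₀ hnR]
    linarith
  set u : (𝓞 K)ˣ := (e₁ ^ (δ * n) * e₂ ^ (-(δ * q))) ^ 2 with hu
  have hlu : ∀ φ : K →+* ℂ, lam φ u = δ * (n * lam φ (e₁ ^ 2) - q * lam φ (e₂ ^ 2)) := by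
    intro φ
    rw [hu, hpow]
    push_cast
    ring
  have hMu : lam σ u - lam τ u - g = δ * M₂ * η := by
    have h1 : δ * M₂ * η = δ * (n * M₁ - q * M₂) - (δ * δ) * g := by
      rw [hη, hγ]
      field_simp
    rw [h1, hδsq, hlu, hlu, hM₁, hM₂]
    ring
  have hMuabs : |lam σ u - lam τ u - g| ≤ 5 * |M₂| / n := by
    rw [hMu, abs_mul, abs_mul, hδabs, one_mul]
    calc |M₂| * |η| ≤ |M₂| * (5 / n) := mul_le_mul_of_nonneg_left hq (abs_nonneg _)
      _ = 5 * |M₂| / n := by ring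
  refine ⟨n, (le_max_left _ _).trans hn, hn0, u, ?_, ?_, ?_⟩
  · have h1 : s * lam ρ u - |Δ| * n = s * δ * (L₂ * (γ + η)) := by
      rw [← hδ2, hlu, ← hL₁, ← hL₂, hΔ, hη]
      field_simp
      ring
    rw [h1, abs_mul, abs_mul, hsabs, hδabs, one_mul, one_mul, abs_mul]
    have h2 : |γ + η| ≤ |γ| + 5 := (abs_add_le _ _).trans (by linarith)
    have h3 := mul_le_mul_of_nonneg_left h2 (abs_nonneg L₂)
    have h4 : 0 ≤ (|g| + 5 * |M₂|) + A * (2 * (5 * |M₂|)) + 1 := by positivity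
    linarith
  · have h1 : |lam σ u - lam τ u| ≤ |g| + 5 * |M₂| := by
      have h2 : lam σ u - lam τ u = g + (lam σ u - lam τ u - g) := by ring
      have h3 : 5 * |M₂| / n ≤ 5 * |M₂| := div_le_self (by positivity) hn1
      calc |lam σ u - lam τ u| = |g + (lam σ u - lam τ u - g)| := by rw [← h2]
        _ ≤ |g| + |lam σ u - lam τ u - g| := abs_add_le _ _
        _ ≤ |g| + 5 * |M₂| := by linarith
    have h4 : 0 ≤ |L₂| * (|γ| + 5) + A * (2 * (5 * |M₂|)) + 1 := by positivity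
    linarith
  · have h1 : c σ * σ (((u : 𝓞 K) : K) * (y : K)) + c τ * τ (((u : 𝓞 K) : K) * (y : K))
        = (c σ * σ (y : K)) * (σ ((u : 𝓞 K) : K) * ((1 - Real.exp (g - (lam σ u - lam τ u)) : ℝ) : ℂ)) := by
      have h2 : σ ((u : 𝓞 K) : K) = ((Real.exp (lam σ u) : ℝ) : ℂ) := by
        rw [hu]
        exact sq_emb σ (hreal σ) _
      have h3 : τ ((u : 𝓞 K) : K) = ((Real.exp (lam τ u) : ℝ) : ℂ) := by
        rw [hu]
        exact sq_emb τ (hreal τ) _
      have h4 : Real.exp (lam σ u) * Real.exp (g - (lam σ u - lam τ u)) = r * Real.exp (lam τ u) := by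
        rw [← Real.exp_add]
        have h5 : lam σ u + (g - (lam σ u - lam τ u)) = g + lam τ u := by ring
        rw [h5, Real.exp_add, hg, Real.exp_log hr]
      have h4' : ((Real.exp (lam σ u) : ℝ) : ℂ) * ((Real.exp (g - (lam σ u - lam τ u)) : ℝ) : ℂ)
          = (r : ℂ) * ((Real.exp (lam τ u) : ℝ) : ℂ) := by
        exact_mod_cast congr_arg (Complex.ofReal) h4
      rw [map_mul, map_mul, h2, h3, Complex.ofReal_sub, Complex.ofReal_one]
      linear_combination ((Real.exp (lam τ u) : ℝ) : ℂ) * hyr + (c σ * σ (y : K)) * h4'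
    have hsmall : |g - (lam σ u - lam τ u)| ≤ 5 * |M₂| / n := by
      rw [abs_sub_comm]
      exact hMuabs
    have hsmall1 : |g - (lam σ u - lam τ u)| ≤ 1 := by
      refine hsmall.trans ?_
      rw [div_le_one hnR]
      exact hnM
    have h2 : |1 - Real.exp (g - (lam σ u - lam τ u))| ≤ 2 * (5 * |M₂|) / n := by
      rw [abs_sub_comm]
      refine (Real.abs_exp_sub_one_le hsmall1).trans ?_
      calc 2 * |g - (lam σ u - lam τ u)| ≤ 2 * (5 * |M₂| / n) := by linarith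
        _ = 2 * (5 * |M₂|) / n := by ring
    rw [h1, norm_mul (c σ * σ (y : K)), norm_mul (σ ((u : 𝓞 K) : K)), Complex.norm_real,
      Real.norm_eq_abs, ← hA]
    have h3 : A * (‖σ ((u : 𝓞 K) : K)‖ * |1 - Real.exp (g - (lam σ u - lam τ u))|)
        ≤ A * (‖σ ((u : 𝓞 K) : K)‖ * (2 * (5 * |M₂|) / n)) :=
      mul_le_mul_of_nonneg_left (mul_le_mul_of_nonneg_left h2 (norm_nonneg _)) (norm_nonneg _)
    refine h3.trans ?_
    have h4 : A * (‖σ ((u : 𝓞 K) : K)‖ * (2 * (5 * |M₂|) / n))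
        = (A * (2 * (5 * |M₂|))) / n * ‖σ ((u : 𝓞 K) : K)‖ := by ring
    rw [h4]
    apply mul_le_mul_of_nonneg_right _ (norm_nonneg _)
    apply div_le_div_of_nonneg_right _ hnR.le
    have h5 : 0 ≤ |L₂| * (|γ| + 5) + (|g| + 5 * |M₂|) + 1 := by positivity
    linarith

theorem unit_rate_complex (hρ : ComplexEmbedding.conjugate ρ = ρ)
    (hσ' : ComplexEmbedding.conjugate σ = τ)
    (c : (K →+* ℂ) → ℂ) (hc : ∀ φ, c (ComplexEmbedding.conjugate φ) = (starRingEnd ℂ) (c φ))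
    (s : ℝ) (hs : s = 1 ∨ s = -1) : UnitRate ρ σ τ c s := by
  obtain ⟨e₀, he₀⟩ := exists_one_unit hK ρ σ τ hρσ hρτ hστ hρ
  -- normalise the sign
  have he : ∃ e : (𝓞 K)ˣ, s * lam ρ e = |lam ρ e₀| := by
    rcases le_total 0 (lam ρ e₀) with h | h
    · rw [abs_of_nonneg h]
      rcases hs with rfl | rfl
      · exact ⟨e₀, by ring⟩
      · exact ⟨e₀⁻¹, by rw [lam_inv]; ring⟩
    · rw [abs_of_nonpos h]
      rcases hs with rfl | rfl
      · exact ⟨e₀⁻¹, by rw [lam_inv]; ring⟩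
      · exact ⟨e₀, by ring⟩
  obtain ⟨e, he⟩ := he
  have hκ : 0 < |lam ρ e₀| := abs_pos.mpr he₀
  have hlame : lam ρ e ≠ 0 := by
    intro h
    rw [h, mul_zero] at he
    exact hκ.ne he
  have hτx : ∀ x : K, τ x = (starRingEnd ℂ) (σ x) := by
    intro x
    rw [← hσ', ComplexEmbedding.conjugate_coe_eq]
  set z : ℂ := σ ((e : 𝓞 K) : K) with hz
  set α : ℝ := z.arg with hα
  set β : ℝ := (c σ).arg with hβ
  have hzexp : z = (‖z‖ : ℂ) * Complex.exp ((α : ℂ) * Complex.I) :=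
    (Complex.norm_mul_exp_arg_mul_I z).symm
  have hcexp : c σ = (‖c σ‖ : ℂ) * Complex.exp ((β : ℂ) * Complex.I) :=
    (Complex.norm_mul_exp_arg_mul_I (c σ)).symm
  have hzn : ∀ n : ℕ, z ^ n = ((‖z‖ ^ n : ℝ) : ℂ) * Complex.exp (((n * α : ℝ) : ℂ) * Complex.I) := by
    intro n
    conv_lhs => rw [hzexp]
    rw [mul_pow, ← Complex.exp_nat_mul]
    push_cast
    congr 2
    ring
  have hirr : Irrational (α / Real.pi) := by
    rintro ⟨q, hq⟩
    have h1 : (q.den : ℝ) * α = q.num * Real.pi := by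
      have h2 : α = q * Real.pi := by rw [hq, div_mul_cancel₀ _ Real.pi_ne_zero]
      have h3 : (q : ℝ) * q.den = q.num := by
        exact_mod_cast congr_arg (Rat.cast : ℚ → ℝ) (Rat.mul_den_eq_num q)
      rw [h2, ← h3]
      ring
    have h2 : (starRingEnd ℂ) (z ^ q.den) = z ^ q.den := by
      rw [Complex.conj_eq_iff_im, hzn, h1, Complex.im_ofReal_mul, Complex.exp_ofReal_mul_I_im,
        Real.sin_int_mul_pi, mul_zero]
    have h3 : σ (((e ^ q.den : (𝓞 K)ˣ) : 𝓞 K) : K) = τ (((e ^ q.den : (𝓞 K)ˣ) : 𝓞 K) : K) := by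
      rw [hτx]
      push_cast
      rw [map_pow, ← hz, h2]
    have h4 := lam_eq_zero_of_eq hK ρ σ τ hρσ hρτ hστ _ h3 ρ
    rw [lam_pow] at h4
    rcases mul_eq_zero.mp h4 with h5 | h5
    · exact q.den_ne_zero (by exact_mod_cast h5)
    · exact hlame h5
  refine ⟨|lam ρ e₀|, 2 * ‖c σ‖ * (5 * Real.pi) + 1, hκ, by positivity, 1, one_ne_zero, fun N => ?_⟩
  obtain ⟨n, hn, hn0, q, hq⟩ := khinchin (α / Real.pi) (1 / 2 - β / Real.pi) hirr N
  have hnR : (0 : ℝ) < n := by exact_mod_cast hn0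
  refine ⟨n, hn, hn0, e ^ n, ?_, ?_, ?_⟩
  · rw [lam_pow]
    have : s * (n * lam ρ e) - |lam ρ e₀| * n = 0 := by
      rw [← he]
      ring
    rw [this, abs_zero]
    positivity
  · have h1 : lam σ (e ^ n) = lam τ (e ^ n) := by
      unfold lam
      rw [hτx, RCLike.norm_conj]
    rw [h1, sub_self, abs_zero]
    positivity
  · have hone : ((1 : 𝓞 K) : K) = 1 := rfl
    have hσn : σ (((e ^ n : (𝓞 K)ˣ) : 𝓞 K) : K) = z ^ n := by
      push_cast
      rw [map_pow]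
    rw [hone, mul_one, hτx, hσn]
    have hcτ : c τ = (starRingEnd ℂ) (c σ) := by
      rw [← hc, hσ']
    rw [hcτ, ← map_mul, Complex.add_conj]
    have hre : (c σ * z ^ n).re = ‖c σ‖ * ‖z‖ ^ n * Real.cos (β + n * α) := by
      have h1 : c σ * z ^ n = ((‖c σ‖ * ‖z‖ ^ n : ℝ) : ℂ)
          * Complex.exp (((β + n * α : ℝ) : ℂ) * Complex.I) := by
        rw [hzn]
        conv_lhs => rw [hcexp]
        push_cast
        rw [add_mul, Complex.exp_add]
        ring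
      rw [h1, Complex.re_ofReal_mul, Complex.exp_ofReal_mul_I_re]
    rw [hre]
    have hcos : |Real.cos (β + n * α)| ≤ 5 * Real.pi / n := by
      set η : ℝ := (n : ℝ) * (α / Real.pi) - q - (1 / 2 - β / Real.pi) with hη
      have h1 : β + n * α = (Real.pi * η + q * Real.pi) + Real.pi / 2 := by
        rw [hη]
        field_simp
        ring
      rw [h1, Real.cos_add_pi_div_two, abs_neg, Real.sin_add_int_mul_pi, abs_mul]
      have h2 : |((-1 : ℝ)) ^ q| = 1 := by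
        rw [abs_zpow]
        simp
      rw [h2, one_mul]
      calc |Real.sin (Real.pi * η)| ≤ |Real.pi * η| := Real.abs_sin_le_abs
        _ = Real.pi * |η| := by rw [abs_mul, abs_of_pos Real.pi_pos]
        _ ≤ Real.pi * (5 / n) := mul_le_mul_of_nonneg_left hq Real.pi_pos.le
        _ = 5 * Real.pi / n := by ring
    rw [norm_pow, Complex.norm_real, Real.norm_eq_abs, abs_mul, abs_mul, abs_mul, abs_of_pos two_pos,
      abs_of_nonneg (norm_nonneg _), abs_of_nonneg (pow_nonneg (norm_nonneg _) _)]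
    calc 2 * (‖c σ‖ * ‖z‖ ^ n * |Real.cos (β + n * α)|)
        ≤ 2 * (‖c σ‖ * ‖z‖ ^ n * (5 * Real.pi / n)) := by
          apply mul_le_mul_of_nonneg_left _ (by norm_num)
          exact mul_le_mul_of_nonneg_left hcos (by positivity)
      _ = (2 * ‖c σ‖ * (5 * Real.pi)) / n * ‖z‖ ^ n := by ring
      _ ≤ (2 * ‖c σ‖ * (5 * Real.pi) + 1) / n * ‖z‖ ^ n := by
          apply mul_le_mul_of_nonneg_right _ (by positivity)
          apply div_le_div_of_nonneg_right _ hnR.le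
          linarith

theorem unit_rate (hρ : ComplexEmbedding.conjugate ρ = ρ)
    (c : (K →+* ℂ) → ℂ) (hc : ∀ φ, c (ComplexEmbedding.conjugate φ) = (starRingEnd ℂ) (c φ))
    (hσ : c σ ≠ 0) (hτ : c τ ≠ 0) (s : ℝ) (hs : s = 1 ∨ s = -1) : UnitRate ρ σ τ c s := by
  have hinv : Function.Involutive (ComplexEmbedding.conjugate : (K →+* ℂ) → (K →+* ℂ)) :=
    fun φ => ComplexEmbedding.involutive_conjugate K φ
  rcases cases_emb hK ρ σ τ hρσ hρτ hστ (ComplexEmbedding.conjugate σ) with h | h | h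
  · exfalso
    apply hρσ
    rw [← hinv σ, h, hρ]
  · refine unit_rate_real hK ρ σ τ hρσ hρτ hστ ?_ c hc hσ hτ s hs
    intro φ
    rcases cases_emb hK ρ σ τ hρσ hρτ hστ φ with h' | h' | h'
    · rw [h', hρ]
    · rw [h', h]
    · rw [h']
      rcases cases_emb hK ρ σ τ hρσ hρτ hστ (ComplexEmbedding.conjugate τ) with h'' | h'' | h''
      · exfalso
        apply hρτ
        rw [← hinv τ, h'', hρ]
      · exfalso
        apply hστ
        rw [← hinv τ, h'', h]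
      · exact h''
  · exact unit_rate_complex hK ρ σ τ hρσ hρτ hστ hρ h c hc s hs

end Pool.Agent.H46.Rate
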