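import Mathlib
import Pool.Agent.H46.Purity
import Pool.Agent.H46.Rate.UnitRate

set_option autoImplicit false

namespace Pool.Agent.H46.Rate

open NumberField Module Pool.Agent.H46

variable {K : Type*} [Field K] [NumberField K]

/-- Values of the product of three forms which are small at a logarithmic rate. -/
def RateK (a : Fin 3 → (K →+* ℂ) → ℂ) : Prop :=
  ∃ κ C : ℝ, 0 < κ ∧ 0 < C ∧ ∀ N : ℕ, ∃ n : ℕ, N ≤ n ∧ 0 < n ∧ ∃ ξ : 𝓞 K,
    ‖∏ i, lf K (a i) (ξ : K)‖ ≤ C / n ∧ (∀ φ : K →+* ℂ, ‖φ (ξ : K)‖ ≤ C * Real.exp (C * n)) ∧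
    ∃ φ : K →+* ℂ, Real.exp (κ * n) / C ≤ ‖φ (ξ : K)‖

theorem prod_three {M : Type*} [CommMonoid M] (f : Fin 3 → M) (i j k : Fin 3) (hij : i ≠ j)
    (hik : i ≠ k) (hjk : j ≠ k) : ∏ m, f m = f i * (f j * f k) := by
  have h : (Finset.univ : Finset (Fin 3)) = {i, j, k} := by
    revert i j k
    decide
  rw [h, Finset.prod_insert (by simp [hij, hik]), Finset.prod_pair hjk]

/-- Assembling the three bounds. -/
theorem rateK_of (a : Fin 3 → (K →+* ℂ) → ℂ) (κ B₁ B₂ B₃ : ℝ) (hκ : 0 < κ) (h₁ : 0 ≤ B₁)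
    (h₂ : 0 ≤ B₂) (h₃ : 0 < B₃)
    (h : ∀ N : ℕ, ∃ n : ℕ, N ≤ n ∧ 0 < n ∧ ∃ ξ : 𝓞 K,
      ‖∏ i, lf K (a i) (ξ : K)‖ ≤ B₁ / n ∧
      (∀ φ : K →+* ℂ, ‖φ (ξ : K)‖ ≤ B₂ * Real.exp (κ * n / 2) ^ 2) ∧
      ∃ φ : K →+* ℂ, Real.exp (κ * n / 2) / B₃ ≤ ‖φ (ξ : K)‖) : RateK a := by
  refine ⟨κ / 2, B₁ + B₂ + B₃ + κ, by positivity, by positivity, fun N => ?_⟩
  obtain ⟨n, hn, hn0, ξ, hx1, hx2, φ, hx3⟩ := h N
  have hnR : (0 : ℝ) < n := by exact_mod_cast hn0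
  refine ⟨n, hn, hn0, ξ, hx1.trans ?_, fun ψ => (hx2 ψ).trans ?_, φ, le_trans ?_ hx3⟩
  · apply div_le_div_of_nonneg_right _ hnR.le
    linarith
  · have h1 : Real.exp (κ * n / 2) ^ 2 = Real.exp (κ * n) := by
      rw [← Real.exp_nat_mul]
      congr 1
      push_cast
      ring
    rw [h1]
    apply mul_le_mul (by linarith) _ (Real.exp_pos _).le (by positivity)
    apply Real.exp_le_exp.mpr
    apply mul_le_mul_of_nonneg_right (by linarith) hnR.le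
  · have h1 : κ / 2 * n = κ * n / 2 := by ring
    rw [h1]
    apply div_le_div_of_nonneg_left (Real.exp_pos _).le h₃
    linarith

variable (hK : finrank ℚ K = 3) (a : Fin 3 → (K →+* ℂ) → ℂ)
  (hc : ∀ i φ, a i (ComplexEmbedding.conjugate φ) = (starRingEnd ℂ) (a i φ))
  (hli : LinearIndependent ℂ a)

include hK hc hli

/-- Row `i` is a multiple of `ρ` and row `j` involves both other embeddings. -/
theorem line_a (ρ σ τ : K →+* ℂ) (hρσ : ρ ≠ σ) (hρτ : ρ ≠ τ) (hστ : σ ≠ τ)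
    (i j k : Fin 3) (hij : i ≠ j) (hik : i ≠ k) (hjk : j ≠ k)
    (hiσ : a i σ = 0) (hiτ : a i τ = 0) (hjσ : a j σ ≠ 0) (hjτ : a j τ ≠ 0) : RateK a := by
  classical
  have hiρ : a i ρ ≠ 0 := by
    intro h
    apply hli.ne_zero i
    funext φ
    rcases cases_emb hK ρ σ τ hρσ hρτ hστ φ with rfl | rfl | rfl
    · exact h
    · exact hiσ
    · exact hiτ
  have hρ : ComplexEmbedding.conjugate ρ = ρ := by
    have h1 : a i (ComplexEmbedding.conjugate ρ) ≠ 0 := by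
      rw [hc]
      exact (_root_.map_ne_zero _).mpr hiρ
    rcases cases_emb hK ρ σ τ hρσ hρτ hστ (ComplexEmbedding.conjugate ρ) with h | h | h
    · exact h
    · rw [h] at h1
      exact absurd hiσ h1
    · rw [h] at h1
      exact absurd hiτ h1
  obtain ⟨κ, C, hκ, hC, y, hy, hrate⟩ := unit_rate hK ρ σ τ hρσ hρτ hστ hρ (a j) (hc j) hjσ hjτ
    (-1) (Or.inr rfl)
  set A : ℝ := 1 + ∑ m, ∑ φ, ‖a m φ‖ * ‖φ (y : K)‖ with hA
  have hA1 : 1 ≤ A := by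
    have : 0 ≤ ∑ m, ∑ φ, ‖a m φ‖ * ‖φ (y : K)‖ :=
      Finset.sum_nonneg fun m _ => Finset.sum_nonneg fun φ _ => by positivity
    linarith
  have hA0 : 0 < A := by linarith
  have hAle : ∀ m φ, ‖a m φ‖ * ‖φ (y : K)‖ ≤ A := by
    intro m φ
    have h1 : ‖a m φ‖ * ‖φ (y : K)‖ ≤ ∑ φ, ‖a m φ‖ * ‖φ (y : K)‖ :=
      Finset.single_le_sum (f := fun φ : K →+* ℂ => ‖a m φ‖ * ‖φ (y : K)‖)
        (fun φ _ => by positivity) (Finset.mem_univ φ)
    have h2 : ∑ φ, ‖a m φ‖ * ‖φ (y : K)‖ ≤ ∑ m, ∑ φ, ‖a m φ‖ * ‖φ (y : K)‖ :=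
      Finset.single_le_sum (f := fun m => ∑ φ : K →+* ℂ, ‖a m φ‖ * ‖φ (y : K)‖)
        (fun m _ => Finset.sum_nonneg fun φ _ => by positivity) (Finset.mem_univ m)
    linarith
  set Y : ℝ := 1 + ∑ φ : K →+* ℂ, ‖φ (y : K)‖ with hY
  have hY0 : 0 < Y := by
    have : 0 ≤ ∑ φ : K →+* ℂ, ‖φ (y : K)‖ := Finset.sum_nonneg fun φ _ => norm_nonneg _
    linarith
  have hYle : ∀ φ : K →+* ℂ, ‖φ (y : K)‖ ≤ Y := by
    intro φ
    have h1 : ‖φ (y : K)‖ ≤ ∑ φ : K →+* ℂ, ‖φ (y : K)‖ :=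
      Finset.single_le_sum (f := fun φ : K →+* ℂ => ‖φ (y : K)‖)
        (fun φ _ => norm_nonneg _) (Finset.mem_univ φ)
    linarith
  set D : ℝ := Real.exp C with hD
  have hD0 : 0 < D := Real.exp_pos _
  have hyσ : 0 < ‖σ (y : K)‖ := by
    rw [norm_pos_iff]
    intro h
    apply hy
    have h2 : (y : K) = 0 := (map_eq_zero σ).mp h
    exact_mod_cast h2
  set G : ℝ := A * D * (2 / κ) + C * D with hG
  have hG0 : 0 < G := by positivity
  refine rateK_of a κ (3 * A ^ 2 * D ^ 2 * G) (D * Y) (D / ‖σ (y : K)‖) hκ (by positivity)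
    (by positivity) (by positivity) fun N => ?_
  obtain ⟨n, hn, hn0, u, hu1, hu2, hu3⟩ := hrate N
  have hnR : (0 : ℝ) < n := by exact_mod_cast hn0
  set E : ℝ := Real.exp (κ * n / 2) with hE
  have hE0 : 0 < E := Real.exp_pos _
  have hE1 : 1 ≤ E := Real.one_le_exp (by positivity)
  have hEn : κ * n / 2 ≤ E := by
    have := Real.add_one_le_exp (κ * n / 2)
    linarith
  have hsum := lam_sum u
  rw [sum_emb hK ρ σ τ hρσ hρτ hστ] at hsum
  rw [abs_le] at hu1 hu2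
  have hρu : ‖ρ ((u : 𝓞 K) : K)‖ ≤ D / E ^ 2 := by
    rw [← exp_lam, hD, hE, ← Real.exp_nat_mul, ← Real.exp_sub]
    apply Real.exp_le_exp.mpr
    push_cast
    linarith [hu1.1]
  have hσu : ‖σ ((u : 𝓞 K) : K)‖ ≤ D * E := by
    rw [← exp_lam, hD, hE, ← Real.exp_add]
    apply Real.exp_le_exp.mpr
    linarith [hu1.2, hu2.2]
  have hτu : ‖τ ((u : 𝓞 K) : K)‖ ≤ D * E := by
    rw [← exp_lam, hD, hE, ← Real.exp_add]
    apply Real.exp_le_exp.mpr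
    linarith [hu1.2, hu2.1]
  have hσlow : E / D ≤ ‖σ ((u : 𝓞 K) : K)‖ := by
    rw [← exp_lam, hD, hE, ← Real.exp_sub]
    apply Real.exp_le_exp.mpr
    linarith [hu1.1, hu2.1]
  have hterm : ∀ m φ, ‖a m φ * φ (((u : 𝓞 K) : K) * (y : K))‖ ≤ A * ‖φ ((u : 𝓞 K) : K)‖ := by
    intro m φ
    rw [map_mul, norm_mul, norm_mul]
    calc ‖a m φ‖ * (‖φ ((u : 𝓞 K) : K)‖ * ‖φ (y : K)‖)
        = (‖a m φ‖ * ‖φ (y : K)‖) * ‖φ ((u : 𝓞 K) : K)‖ := by ring
      _ ≤ A * ‖φ ((u : 𝓞 K) : K)‖ := mul_le_mul_of_nonneg_right (hAle m φ) (norm_nonneg _)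
  have hEinv : 1 / E ≤ 2 / κ / n := by
    rw [div_div, div_le_div_iff₀ hE0 (by positivity)]
    linarith
  have hρu' : ‖ρ ((u : 𝓞 K) : K)‖ ≤ D * (2 / κ) / n * E := by
    refine hρu.trans ?_
    calc D / E ^ 2 ≤ D / E := by
          apply div_le_div_of_nonneg_left hD0.le hE0
          nlinarith
      _ = D * (1 / E) := by ring
      _ ≤ D * (2 / κ / n) := mul_le_mul_of_nonneg_left hEinv hD0.le
      _ = D * (2 / κ) / n * 1 := by ring
      _ ≤ D * (2 / κ) / n * E := mul_le_mul_of_nonneg_left hE1 (by positivity)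
  have hρu'' : ‖ρ ((u : 𝓞 K) : K)‖ ≤ D * E := by
    refine hρu.trans ?_
    rw [div_le_iff₀ (by positivity)]
    have h1 : 1 ≤ E * E ^ 2 := by
      have := one_le_pow₀ hE1 (n := 3)
      nlinarith
    calc D = D * 1 := by ring
      _ ≤ D * (E * E ^ 2) := mul_le_mul_of_nonneg_left h1 hD0.le
      _ = D * E * E ^ 2 := by ring
  refine ⟨n, hn, hn0, (u : 𝓞 K) * y, ?_, ?_, σ, ?_⟩
  · have hcoe : (((u : 𝓞 K) * y : 𝓞 K) : K) = ((u : 𝓞 K) : K) * (y : K) := by push_cast; rfl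
    rw [hcoe, prod_three _ i j k hij hik hjk, norm_mul, norm_mul]
    have hi : ‖lf K (a i) (((u : 𝓞 K) : K) * (y : K))‖ ≤ A * D / E ^ 2 := by
      unfold lf
      rw [sum_emb hK ρ σ τ hρσ hρτ hστ, hiσ, hiτ, zero_mul, zero_mul, add_zero, add_zero]
      calc _ ≤ A * ‖ρ ((u : 𝓞 K) : K)‖ := hterm i ρ
        _ ≤ A * (D / E ^ 2) := mul_le_mul_of_nonneg_left hρu hA0.le
        _ = A * D / E ^ 2 := by ring
    have hj : ‖lf K (a j) (((u : 𝓞 K) : K) * (y : K))‖ ≤ G * E / n := by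
      unfold lf
      rw [sum_emb hK ρ σ τ hρσ hρτ hστ]
      calc _ ≤ ‖a j ρ * ρ (((u : 𝓞 K) : K) * (y : K))‖
            + ‖a j σ * σ (((u : 𝓞 K) : K) * (y : K)) + a j τ * τ (((u : 𝓞 K) : K) * (y : K))‖ :=
            norm_add_le _ _
        _ ≤ A * (D * (2 / κ) / n * E) + C / n * (D * E) := by
            apply add_le_add
            · exact (hterm j ρ).trans (mul_le_mul_of_nonneg_left hρu' hA0.le)
            · exact hu3.trans (mul_le_mul_of_nonneg_left hσu (by positivity))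
        _ = G * E / n := by rw [hG]; ring
    have hk : ‖lf K (a k) (((u : 𝓞 K) : K) * (y : K))‖ ≤ 3 * A * D * E := by
      unfold lf
      rw [sum_emb hK ρ σ τ hρσ hρτ hστ]
      calc _ ≤ ‖a k ρ * ρ (((u : 𝓞 K) : K) * (y : K))‖
            + ‖a k σ * σ (((u : 𝓞 K) : K) * (y : K)) + a k τ * τ (((u : 𝓞 K) : K) * (y : K))‖ :=
            norm_add_le _ _
        _ ≤ ‖a k ρ * ρ (((u : 𝓞 K) : K) * (y : K))‖
            + (‖a k σ * σ (((u : 𝓞 K) : K) * (y : K))‖ + ‖a k τ * τ (((u : 𝓞 K) : K) * (y : K))‖) :=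
            add_le_add le_rfl (norm_add_le _ _)
        _ ≤ A * (D * E) + (A * (D * E) + A * (D * E)) := by
            apply add_le_add _ (add_le_add _ _)
            · exact (hterm k ρ).trans (mul_le_mul_of_nonneg_left hρu'' hA0.le)
            · exact (hterm k σ).trans (mul_le_mul_of_nonneg_left hσu hA0.le)
            · exact (hterm k τ).trans (mul_le_mul_of_nonneg_left hτu hA0.le)
        _ = 3 * A * D * E := by ring
    calc _ ≤ (A * D / E ^ 2) * ((G * E / n) * (3 * A * D * E)) := by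
          apply mul_le_mul hi _ (by positivity) (by positivity)
          exact mul_le_mul hj hk (by positivity) (by positivity)
      _ = 3 * A ^ 2 * D ^ 2 * G / n := by
          field_simp
  · intro φ
    have hcoe : (((u : 𝓞 K) * y : 𝓞 K) : K) = ((u : 𝓞 K) : K) * (y : K) := by push_cast; rfl
    rw [hcoe, map_mul, norm_mul]
    have h1 : ‖φ ((u : 𝓞 K) : K)‖ ≤ D * E ^ 2 := by
      have h2 : D * E ≤ D * E ^ 2 := mul_le_mul_of_nonneg_left (by nlinarith) hD0.le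
      rcases cases_emb hK ρ σ τ hρσ hρτ hστ φ with rfl | rfl | rfl
      · exact hρu''.trans h2
      · exact hσu.trans h2
      · exact hτu.trans h2
    calc ‖φ ((u : 𝓞 K) : K)‖ * ‖φ (y : K)‖ ≤ (D * E ^ 2) * Y :=
          mul_le_mul h1 (hYle φ) (norm_nonneg _) (by positivity)
      _ = D * Y * E ^ 2 := by ring
  · have hcoe : (((u : 𝓞 K) * y : 𝓞 K) : K) = ((u : 𝓞 K) : K) * (y : K) := by push_cast; rfl
    rw [hcoe, map_mul, norm_mul]
    calc E / (D / ‖σ (y : K)‖) = E / D * ‖σ (y : K)‖ := by field_simp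
      _ ≤ ‖σ ((u : 𝓞 K) : K)‖ * ‖σ (y : K)‖ := mul_le_mul_of_nonneg_right hσlow hyσ.le

/-- Rows `j` and `k` vanish at `ρ` and row `j` involves both other embeddings. -/
theorem line_b (ρ σ τ : K →+* ℂ) (hρσ : ρ ≠ σ) (hρτ : ρ ≠ τ) (hστ : σ ≠ τ)
    (i j k : Fin 3) (hij : i ≠ j) (hik : i ≠ k) (hjk : j ≠ k)
    (hjρ : a j ρ = 0) (hkρ : a k ρ = 0) (hjσ : a j σ ≠ 0) (hjτ : a j τ ≠ 0) : RateK a := by
  classical
  have hρ : ComplexEmbedding.conjugate ρ = ρ := by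
    have h1 : a j (ComplexEmbedding.conjugate ρ) = 0 := by
      rw [hc, hjρ, map_zero]
    rcases cases_emb hK ρ σ τ hρσ hρτ hστ (ComplexEmbedding.conjugate ρ) with h | h | h
    · exact h
    · rw [h] at h1
      exact absurd h1 hjσ
    · rw [h] at h1
      exact absurd h1 hjτ
  obtain ⟨κ, C, hκ, hC, y, hy, hrate⟩ := unit_rate hK ρ σ τ hρσ hρτ hστ hρ (a j) (hc j) hjσ hjτ
    1 (Or.inl rfl)
  set A : ℝ := 1 + ∑ m, ∑ φ, ‖a m φ‖ * ‖φ (y : K)‖ with hA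
  have hA1 : 1 ≤ A := by
    have : 0 ≤ ∑ m, ∑ φ, ‖a m φ‖ * ‖φ (y : K)‖ :=
      Finset.sum_nonneg fun m _ => Finset.sum_nonneg fun φ _ => by positivity
    linarith
  have hA0 : 0 < A := by linarith
  have hAle : ∀ m φ, ‖a m φ‖ * ‖φ (y : K)‖ ≤ A := by
    intro m φ
    have h1 : ‖a m φ‖ * ‖φ (y : K)‖ ≤ ∑ φ, ‖a m φ‖ * ‖φ (y : K)‖ :=
      Finset.single_le_sum (f := fun φ : K →+* ℂ => ‖a m φ‖ * ‖φ (y : K)‖)
        (fun φ _ => by positivity) (Finset.mem_univ φ)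
    have h2 : ∑ φ, ‖a m φ‖ * ‖φ (y : K)‖ ≤ ∑ m, ∑ φ, ‖a m φ‖ * ‖φ (y : K)‖ :=
      Finset.single_le_sum (f := fun m => ∑ φ : K →+* ℂ, ‖a m φ‖ * ‖φ (y : K)‖)
        (fun m _ => Finset.sum_nonneg fun φ _ => by positivity) (Finset.mem_univ m)
    linarith
  set Y : ℝ := 1 + ∑ φ : K →+* ℂ, ‖φ (y : K)‖ with hY
  have hY0 : 0 < Y := by
    have : 0 ≤ ∑ φ : K →+* ℂ, ‖φ (y : K)‖ := Finset.sum_nonneg fun φ _ => norm_nonneg _
    linarith
  have hYle : ∀ φ : K →+* ℂ, ‖φ (y : K)‖ ≤ Y := by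
    intro φ
    have h1 : ‖φ (y : K)‖ ≤ ∑ φ : K →+* ℂ, ‖φ (y : K)‖ :=
      Finset.single_le_sum (f := fun φ : K →+* ℂ => ‖φ (y : K)‖)
        (fun φ _ => norm_nonneg _) (Finset.mem_univ φ)
    linarith
  set D : ℝ := Real.exp C with hD
  have hD0 : 0 < D := Real.exp_pos _
  have hyρ : 0 < ‖ρ (y : K)‖ := by
    rw [norm_pos_iff]
    intro h
    apply hy
    have h2 : (y : K) = 0 := (map_eq_zero ρ).mp h
    exact_mod_cast h2
  refine rateK_of a κ (3 * A * D * (C * D) * (2 * A * D)) (D * Y) (D / ‖ρ (y : K)‖) hκ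
    (by positivity) (by positivity) (by positivity) fun N => ?_
  obtain ⟨n, hn, hn0, u, hu1, hu2, hu3⟩ := hrate N
  have hnR : (0 : ℝ) < n := by exact_mod_cast hn0
  set E : ℝ := Real.exp (κ * n / 2) with hE
  have hE0 : 0 < E := Real.exp_pos _
  have hE1 : 1 ≤ E := Real.one_le_exp (by positivity)
  have hsum := lam_sum u
  rw [sum_emb hK ρ σ τ hρσ hρτ hστ] at hsum
  rw [abs_le] at hu1 hu2
  have hρu : ‖ρ ((u : 𝓞 K) : K)‖ ≤ D * E ^ 2 := by
    rw [← exp_lam, hD, hE, ← Real.exp_nat_mul, ← Real.exp_add]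
    apply Real.exp_le_exp.mpr
    push_cast
    linarith [hu1.2]
  have hσu : ‖σ ((u : 𝓞 K) : K)‖ ≤ D / E := by
    rw [← exp_lam, hD, hE, ← Real.exp_sub]
    apply Real.exp_le_exp.mpr
    linarith [hu1.1, hu2.2]
  have hτu : ‖τ ((u : 𝓞 K) : K)‖ ≤ D / E := by
    rw [← exp_lam, hD, hE, ← Real.exp_sub]
    apply Real.exp_le_exp.mpr
    linarith [hu1.1, hu2.1]
  have hρlow : E / D ≤ ‖ρ ((u : 𝓞 K) : K)‖ := by
    have h1 : E ^ 2 / D ≤ ‖ρ ((u : 𝓞 K) : K)‖ := by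
      rw [← exp_lam, hD, hE, ← Real.exp_nat_mul, ← Real.exp_sub]
      apply Real.exp_le_exp.mpr
      push_cast
      linarith [hu1.1]
    refine le_trans ?_ h1
    apply div_le_div_of_nonneg_right _ hD0.le
    nlinarith
  have hterm : ∀ m φ, ‖a m φ * φ (((u : 𝓞 K) : K) * (y : K))‖ ≤ A * ‖φ ((u : 𝓞 K) : K)‖ := by
    intro m φ
    rw [map_mul, norm_mul, norm_mul]
    calc ‖a m φ‖ * (‖φ ((u : 𝓞 K) : K)‖ * ‖φ (y : K)‖)
        = (‖a m φ‖ * ‖φ (y : K)‖) * ‖φ ((u : 𝓞 K) : K)‖ := by ring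
      _ ≤ A * ‖φ ((u : 𝓞 K) : K)‖ := mul_le_mul_of_nonneg_right (hAle m φ) (norm_nonneg _)
  have hDE : D / E ≤ D * E ^ 2 := by
    rw [div_le_iff₀ hE0]
    have h1 : 1 ≤ E ^ 2 * E := by
      have := one_le_pow₀ hE1 (n := 3)
      nlinarith
    calc D = D * 1 := by ring
      _ ≤ D * (E ^ 2 * E) := mul_le_mul_of_nonneg_left h1 hD0.le
      _ = D * E ^ 2 * E := by ring
  refine ⟨n, hn, hn0, (u : 𝓞 K) * y, ?_, ?_, ρ, ?_⟩
  · have hcoe : (((u : 𝓞 K) * y : 𝓞 K) : K) = ((u : 𝓞 K) : K) * (y : K) := by push_cast; rfl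
    rw [hcoe, prod_three _ i j k hij hik hjk, norm_mul, norm_mul]
    have hi : ‖lf K (a i) (((u : 𝓞 K) : K) * (y : K))‖ ≤ 3 * A * D * E ^ 2 := by
      unfold lf
      rw [sum_emb hK ρ σ τ hρσ hρτ hστ]
      calc _ ≤ ‖a i ρ * ρ (((u : 𝓞 K) : K) * (y : K))‖
            + ‖a i σ * σ (((u : 𝓞 K) : K) * (y : K)) + a i τ * τ (((u : 𝓞 K) : K) * (y : K))‖ :=
            norm_add_le _ _
        _ ≤ ‖a i ρ * ρ (((u : 𝓞 K) : K) * (y : K))‖
            + (‖a i σ * σ (((u : 𝓞 K) : K) * (y : K))‖ + ‖a i τ * τ (((u : 𝓞 K) : K) * (y : K))‖) :=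
            add_le_add le_rfl (norm_add_le _ _)
        _ ≤ A * (D * E ^ 2) + (A * (D * E ^ 2) + A * (D * E ^ 2)) := by
            apply add_le_add _ (add_le_add _ _)
            · exact (hterm i ρ).trans (mul_le_mul_of_nonneg_left hρu hA0.le)
            · exact (hterm i σ).trans (mul_le_mul_of_nonneg_left (hσu.trans hDE) hA0.le)
            · exact (hterm i τ).trans (mul_le_mul_of_nonneg_left (hτu.trans hDE) hA0.le)
        _ = 3 * A * D * E ^ 2 := by ring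
    have hj : ‖lf K (a j) (((u : 𝓞 K) : K) * (y : K))‖ ≤ C * D / E / n := by
      unfold lf
      rw [sum_emb hK ρ σ τ hρσ hρτ hστ, hjρ, zero_mul, zero_add]
      calc _ ≤ C / n * ‖σ ((u : 𝓞 K) : K)‖ := hu3
        _ ≤ C / n * (D / E) := mul_le_mul_of_nonneg_left hσu (by positivity)
        _ = C * D / E / n := by ring
    have hk : ‖lf K (a k) (((u : 𝓞 K) : K) * (y : K))‖ ≤ 2 * A * D / E := by
      unfold lf
      rw [sum_emb hK ρ σ τ hρσ hρτ hστ, hkρ, zero_mul, zero_add]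
      calc _ ≤ ‖a k σ * σ (((u : 𝓞 K) : K) * (y : K))‖
            + ‖a k τ * τ (((u : 𝓞 K) : K) * (y : K))‖ := norm_add_le _ _
        _ ≤ A * (D / E) + A * (D / E) := by
            apply add_le_add
            · exact (hterm k σ).trans (mul_le_mul_of_nonneg_left hσu hA0.le)
            · exact (hterm k τ).trans (mul_le_mul_of_nonneg_left hτu hA0.le)
        _ = 2 * A * D / E := by ring
    calc _ ≤ (3 * A * D * E ^ 2) * ((C * D / E / n) * (2 * A * D / E)) := by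
          apply mul_le_mul hi _ (by positivity) (by positivity)
          exact mul_le_mul hj hk (by positivity) (by positivity)
      _ = 3 * A * D * (C * D) * (2 * A * D) / n := by
          field_simp
  · intro φ
    have hcoe : (((u : 𝓞 K) * y : 𝓞 K) : K) = ((u : 𝓞 K) : K) * (y : K) := by push_cast; rfl
    rw [hcoe, map_mul, norm_mul]
    have h1 : ‖φ ((u : 𝓞 K) : K)‖ ≤ D * E ^ 2 := by
      rcases cases_emb hK ρ σ τ hρσ hρτ hστ φ with rfl | rfl | rfl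
      · exact hρu
      · exact hσu.trans hDE
      · exact hτu.trans hDE
    calc ‖φ ((u : 𝓞 K) : K)‖ * ‖φ (y : K)‖ ≤ (D * E ^ 2) * Y :=
          mul_le_mul h1 (hYle φ) (norm_nonneg _) (by positivity)
      _ = D * Y * E ^ 2 := by ring
  · have hcoe : (((u : 𝓞 K) * y : 𝓞 K) : K) = ((u : 𝓞 K) : K) * (y : K) := by push_cast; rfl
    rw [hcoe, map_mul, norm_mul]
    calc E / (D / ‖ρ (y : K)‖) = E / D * ‖ρ (y : K)‖ := by field_simp
      _ ≤ ‖ρ ((u : 𝓞 K) : K)‖ * ‖ρ (y : K)‖ := mul_le_mul_of_nonneg_right hρlow hyρ.le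

end Pool.Agent.H46.Rate
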