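import Mathlib
import Pool.Agent.H46.Rate.Lines

set_option autoImplicit false

namespace Pool.Agent.H46.Rate

open NumberField Module Pool.Agent.H46

variable {K : Type*} [Field K] [NumberField K]

/-- Every row involves only one embedding. -/
def Pure (a : Fin 3 → (K →+* ℂ) → ℂ) : Prop :=
  ∀ i (σ τ : K →+* ℂ), a i σ ≠ 0 → a i τ ≠ 0 → σ = τ

variable (hK : finrank ℚ K = 3) (a : Fin 3 → (K →+* ℂ) → ℂ)
  (hc : ∀ i φ, a i (ComplexEmbedding.conjugate φ) = (starRingEnd ℂ) (a i φ))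
  (hli : LinearIndependent ℂ a)

omit [NumberField K] in
theorem all_indices (P : Fin 3 → Prop) (i j k : Fin 3) (hij : i ≠ j)
    (hik : i ≠ k) (hjk : j ≠ k) (hi : P i) (hj : P j) (hk : P k) (m : Fin 3) : P m := by
  have h0 : ∀ i j k m : Fin 3, i ≠ j → i ≠ k → j ≠ k → m = i ∨ m = j ∨ m = k := by decide
  have h := h0 i j k m hij hik hjk
  rcases h with rfl | rfl | rfl
  · exact hi
  · exact hj
  · exact hk

include hK

/-- A row supported on one embedding. -/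
theorem pure_row (ρ σ τ : K →+* ℂ) (hρσ : ρ ≠ σ) (hρτ : ρ ≠ τ) (hστ : σ ≠ τ)
    (v : (K →+* ℂ) → ℂ) (h1 : v σ = 0) (h2 : v τ = 0) (φ ψ : K →+* ℂ) (hφ : v φ ≠ 0)
    (hψ : v ψ ≠ 0) : φ = ψ := by
  have h : ∀ φ, v φ ≠ 0 → φ = ρ := by
    intro φ hφ
    rcases cases_emb hK ρ σ τ hρσ hρτ hστ φ with h | h | h
    · exact h
    · rw [h] at hφ
      exact absurd h1 hφ
    · rw [h] at hφ
      exact absurd h2 hφ
  rw [h φ hφ, h ψ hψ]

include hli

/-- Two rows cannot both be supported on one embedding. -/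
theorem two_rows (ρ σ τ : K →+* ℂ) (hρσ : ρ ≠ σ) (hρτ : ρ ≠ τ) (hστ : σ ≠ τ)
    (i j : Fin 3) (hij : i ≠ j) (h1 : a i σ = 0) (h2 : a i τ = 0) (h3 : a j σ = 0)
    (h4 : a j τ = 0) : False := by
  classical
  have h := card_le_of_supported a hli {i, j} {ρ} (by
    intro m hm φ hφ
    rw [Finset.mem_singleton] at hφ
    rw [Finset.mem_insert, Finset.mem_singleton] at hm
    rcases cases_emb hK ρ σ τ hρσ hρτ hστ φ with h | h | h
    · exact absurd h hφ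
    · rcases hm with rfl | rfl
      · rw [h, h1]
      · rw [h, h3]
    · rcases hm with rfl | rfl
      · rw [h, h2]
      · rw [h, h4])
  rw [Finset.card_pair hij, Finset.card_singleton] at h
  omega

/-- Every embedding is used by some row. -/
theorem three_rows (ρ : K →+* ℂ) (i j k : Fin 3) (hij : i ≠ j) (hik : i ≠ k) (hjk : j ≠ k)
    (h1 : a i ρ = 0) (h2 : a j ρ = 0) (h3 : a k ρ = 0) : False := by
  classical
  have h := card_le_of_supported a hli Finset.univ (Finset.univ.erase ρ) (by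
    intro m _ φ hφ
    have hφ' : φ = ρ := by
      by_contra h
      exact hφ (Finset.mem_erase.mpr ⟨h, Finset.mem_univ φ⟩)
    rw [hφ']
    exact all_indices (fun m => a m ρ = 0) i j k hij hik hjk h1 h2 h3 m)
  rw [Finset.card_erase_of_mem (Finset.mem_univ ρ), Finset.card_univ, Finset.card_univ,
    Fintype.card_fin, Embeddings.card K ℂ, hK] at h
  omega

include hc

/-- Case of one pure row, auxiliary. -/
theorem caseA_aux (ρ σ τ : K →+* ℂ) (hρσ : ρ ≠ σ) (hρτ : ρ ≠ τ) (hστ : σ ≠ τ)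
    (i j k : Fin 3) (hij : i ≠ j) (hik : i ≠ k) (hjk : j ≠ k)
    (hiσ : a i σ = 0) (hiτ : a i τ = 0) (hjτ : a j τ = 0) (hkσ : a k σ = 0) :
    RateK a ∨ Pure a := by
  have hjσ : a j σ ≠ 0 := fun h => two_rows hK a hli ρ σ τ hρσ hρτ hστ i j hij hiσ hiτ h hjτ
  have hkτ : a k τ ≠ 0 := fun h => two_rows hK a hli ρ σ τ hρσ hρτ hστ i k hik hiσ hiτ hkσ h
  by_cases hjρ : a j ρ = 0
  · by_cases hkρ : a k ρ = 0
    · right
      intro m
      refine all_indices (fun m => ∀ (σ τ : K →+* ℂ), a m σ ≠ 0 → a m τ ≠ 0 → σ = τ)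
        i j k hij hik hjk ?_ ?_ ?_ m
      · exact pure_row hK ρ σ τ hρσ hρτ hστ (a i) hiσ hiτ
      · exact pure_row hK σ ρ τ hρσ.symm hστ hρτ (a j) hjρ hjτ
      · exact pure_row hK τ ρ σ hρτ.symm hστ.symm hρσ (a k) hkρ hkσ
    · left
      -- rows `k` and `i` vanish at `σ`, row `k` involves `ρ` and `τ`
      exact line_b hK a hc hli σ ρ τ hρσ.symm hστ hρτ j k i hjk hij.symm hik.symm hkσ hiσ hkρ hkτ
  · left
    exact line_b hK a hc hli τ ρ σ hρτ.symm hστ.symm hρσ k j i hjk.symm hik.symm hij.symm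
      hjτ hiτ hjρ hjσ

/-- Case of one pure row. -/
theorem caseA (ρ σ τ : K →+* ℂ) (hρσ : ρ ≠ σ) (hρτ : ρ ≠ τ) (hστ : σ ≠ τ)
    (i j k : Fin 3) (hij : i ≠ j) (hik : i ≠ k) (hjk : j ≠ k)
    (hiσ : a i σ = 0) (hiτ : a i τ = 0) : RateK a ∨ Pure a := by
  by_cases h1 : a j σ = 0
  · by_cases h2 : a k τ = 0
    · exact caseA_aux hK a hc hli ρ σ τ hρσ hρτ hστ i k j hik hij hjk.symm hiσ hiτ h2 h1
    · by_cases h3 : a k σ = 0
      · by_cases h4 : a j τ = 0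
        · exact (two_rows hK a hli ρ σ τ hρσ hρτ hστ i j hij hiσ hiτ h1 h4).elim
        · exact (three_rows hK a hli σ i j k hij hik hjk hiσ h1 h3).elim
      · exact Or.inl (line_a hK a hc hli ρ σ τ hρσ hρτ hστ i k j hik hij hjk.symm hiσ hiτ h3 h2)
  · by_cases h2 : a j τ = 0
    · by_cases h3 : a k σ = 0
      · exact caseA_aux hK a hc hli ρ σ τ hρσ hρτ hστ i j k hij hik hjk hiσ hiτ h2 h3
      · by_cases h4 : a k τ = 0
        · exact (three_rows hK a hli τ i j k hij hik hjk hiτ h2 h4).elim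
        · exact Or.inl (line_a hK a hc hli ρ σ τ hρσ hρτ hστ i k j hik hij hjk.symm hiσ hiτ h3 h4)
    · exact Or.inl (line_a hK a hc hli ρ σ τ hρσ hρτ hστ i j k hij hik hjk hiσ hiτ h1 h2)

/-- Case of two rows vanishing at an embedding, auxiliary. -/
theorem caseB_aux (ρ σ τ : K →+* ℂ) (hρσ : ρ ≠ σ) (hρτ : ρ ≠ τ) (hστ : σ ≠ τ)
    (i j k : Fin 3) (hij : i ≠ j) (hik : i ≠ k) (hjk : j ≠ k)
    (hjρ : a j ρ = 0) (hkρ : a k ρ = 0) (hjτ : a j τ = 0) (hkσ : a k σ = 0) :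
    RateK a ∨ Pure a := by
  have hiρ : a i ρ ≠ 0 := fun h => three_rows hK a hli ρ i j k hij hik hjk h hjρ hkρ
  by_cases hiσ : a i σ = 0
  · by_cases hiτ : a i τ = 0
    · right
      intro m
      refine all_indices (fun m => ∀ (σ τ : K →+* ℂ), a m σ ≠ 0 → a m τ ≠ 0 → σ = τ)
        i j k hij hik hjk ?_ ?_ ?_ m
      · exact pure_row hK ρ σ τ hρσ hρτ hστ (a i) hiσ hiτ
      · exact pure_row hK σ ρ τ hρσ.symm hστ hρτ (a j) hjρ hjτ
      · exact pure_row hK τ ρ σ hρτ.symm hστ.symm hρσ (a k) hkρ hkσ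
    · left
      -- row `j` is a multiple of `σ`, row `i` involves `ρ` and `τ`
      exact line_a hK a hc hli σ ρ τ hρσ.symm hστ hρτ j i k hij.symm hjk hik hjρ hjτ hiρ hiτ
  · left
    exact line_a hK a hc hli τ ρ σ hρτ.symm hστ.symm hρσ k i j hik.symm hjk.symm hij hkρ hkσ hiρ hiσ

/-- Case of two rows vanishing at an embedding. -/
theorem caseB (ρ σ τ : K →+* ℂ) (hρσ : ρ ≠ σ) (hρτ : ρ ≠ τ) (hστ : σ ≠ τ)
    (i j k : Fin 3) (hij : i ≠ j) (hik : i ≠ k) (hjk : j ≠ k)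
    (hjρ : a j ρ = 0) (hkρ : a k ρ = 0) : RateK a ∨ Pure a := by
  by_cases h1 : a j σ = 0
  · by_cases h2 : a k τ = 0
    · exact caseB_aux hK a hc hli ρ σ τ hρσ hρτ hστ i k j hik hij hjk.symm hkρ hjρ h2 h1
    · by_cases h3 : a k σ = 0
      · exact (two_rows hK a hli τ ρ σ hρτ.symm hστ.symm hρσ j k hjk hjρ h1 hkρ h3).elim
      · exact Or.inl (line_b hK a hc hli ρ σ τ hρσ hρτ hστ i k j hik hij hjk.symm hkρ hjρ h3 h2)
  · by_cases h2 : a j τ = 0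
    · by_cases h3 : a k σ = 0
      · exact caseB_aux hK a hc hli ρ σ τ hρσ hρτ hστ i j k hij hik hjk hjρ hkρ h2 h3
      · by_cases h4 : a k τ = 0
        · exact (two_rows hK a hli σ ρ τ hρσ.symm hστ hρτ j k hjk hjρ h2 hkρ h4).elim
        · exact Or.inl (line_b hK a hc hli ρ σ τ hρσ hρτ hστ i k j hik hij hjk.symm hkρ hjρ h3 h4)
    · exact Or.inl (line_b hK a hc hli ρ σ τ hρσ hρτ hστ i j k hij hik hjk hjρ hkρ h1 h2)

/-- The two cases. -/
theorem rate_or_pure (h : (∃ i, ∃ ρ : K →+* ℂ, ∀ σ, σ ≠ ρ → a i σ = 0) ∨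
    (∃ i, ∃ ρ : K →+* ℂ, ∀ j, j ≠ i → a j ρ = 0)) : RateK a ∨ Pure a := by
  classical
  have hidx : ∀ i : Fin 3, ∃ j k : Fin 3, i ≠ j ∧ i ≠ k ∧ j ≠ k := by decide
  have hemb : ∀ ρ : K →+* ℂ, ∃ σ τ : K →+* ℂ, ρ ≠ σ ∧ ρ ≠ τ ∧ σ ≠ τ := by
    intro ρ
    have hcard : Fintype.card (K →+* ℂ) = 3 := by rw [Embeddings.card K ℂ, hK]
    let e : (K →+* ℂ) ≃ Fin 3 := Fintype.equivFinOfCardEq hcard
    obtain ⟨j, k, h1, h2, h3⟩ := hidx (e ρ)
    refine ⟨e.symm j, e.symm k, ?_, ?_, ?_⟩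
    · intro h
      apply h1
      rw [h, Equiv.apply_symm_apply]
    · intro h
      apply h2
      rw [h, Equiv.apply_symm_apply]
    · intro h
      exact h3 (e.symm.injective h)
  rcases h with ⟨i, ρ, h⟩ | ⟨i, ρ, h⟩
  · obtain ⟨j, k, hij, hik, hjk⟩ := hidx i
    obtain ⟨σ, τ, hρσ, hρτ, hστ⟩ := hemb ρ
    exact caseA hK a hc hli ρ σ τ hρσ hρτ hστ i j k hij hik hjk (h σ hρσ.symm) (h τ hρτ.symm)
  · obtain ⟨j, k, hij, hik, hjk⟩ := hidx i
    obtain ⟨σ, τ, hρσ, hρτ, hστ⟩ := hemb ρ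
    exact caseB hK a hc hli ρ σ τ hρσ hρτ hστ i j k hij hik hjk (h j hij.symm) (h k hik.symm)

end Pool.Agent.H46.Rate
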