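import Mathlib
import Pool.Agent.H46.Coeff
import Pool.Agent.H46.MainK
import Pool.Agent.H46.CoprimeBlockProof
import Pool.Agent.H46.Rate.Comb

set_option autoImplicit false

namespace Pool.Agent.H46.Rate

open Filter Topology NumberField Module Polynomial Pool.Agent.H46

variable {K : Type*} [Field K] [NumberField K]

theorem main_rate (hK : finrank ℚ K = 3)
    (Ψ : K →ₐ[ℚ] Matrix (Fin 3) (Fin 3) ℚ) (g : Matrix (Fin 3) (Fin 3) ℝ) (hg : g.det ≠ 0)
    (I : Finset (Fin 3)) (hI0 : I.Nonempty) (hI1 : I ≠ Finset.univ) (θ : K)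
    (hθ : Function.Injective (fun σ : K →+* ℂ => σ θ))
    (hinv : ∀ i ∈ I, Matrix.vecMul (g i) ((Ψ θ).map (Rat.cast : ℚ → ℝ))
      ∈ Submodule.span ℝ (g '' (I : Set (Fin 3)))) :
    (∃ C : ℝ, ∀ R : ℝ, ∃ x : Fin 3 → ℤ, R ≤ ‖x‖ ∧
      |∏ i, ∑ j, g i j * (x j : ℝ)| * Real.log ‖x‖ ≤ C) ∨
    ∃ lam : Fin 3 → ℝ, Function.Injective lam ∧
      ∀ i, Matrix.vecMul (g i) ((Ψ θ).map (Rat.cast : ℚ → ℝ)) = lam i • g i := by
  classical
  -- the module structure of `ℚ^d`
  let v0 : Fin 3 → ℚ := Pi.single 0 1
  have hv0 : v0 ≠ 0 := by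
    intro h
    have := congr_fun h 0
    simp [v0] at this
  let vec : K →ₗ[ℚ] (Fin 3 → ℚ) :=
    { toFun := fun x => (Ψ x).mulVec v0
      map_add' := fun x y => by rw [map_add, Matrix.add_mulVec]
      map_smul' := fun q x => by rw [map_smul, Matrix.smul_mulVec, RingHom.id_apply] }
  have hvec : ∀ x, vec x = (Ψ x).mulVec v0 := fun x => rfl
  have hvmul : ∀ x y, vec (x * y) = (Ψ x).mulVec (vec y) := by
    intro x y
    rw [hvec, hvec, map_mul, Matrix.mulVec_mulVec]
  have hvinj : Function.Injective vec := by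
    rw [injective_iff_map_eq_zero]
    intro x hx
    by_contra hx0
    apply hv0
    have h1 : vec (x⁻¹ * x) = 0 := by rw [hvmul, hx, Matrix.mulVec_zero]
    rw [inv_mul_cancel₀ hx0, hvec, map_one, Matrix.one_mulVec] at h1
    exact h1
  have hvsurj : Function.Surjective vec := by
    refine (LinearMap.injective_iff_surjective_of_finrank_eq_finrank ?_).mp hvinj
    rw [hK, finrank_fintype_fun_eq_card, Fintype.card_fin]
  -- the forms as functionals on `K`
  let ψ : Fin 3 → K → ℝ := fun i x => ∑ j, g i j * ((vec x j : ℚ) : ℝ)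
  have hψadd : ∀ i x y, ψ i (x + y) = ψ i x + ψ i y := by
    intro i x y
    simp only [ψ, map_add, Pi.add_apply, Rat.cast_add, mul_add, Finset.sum_add_distrib]
  have hψsmul : ∀ i (q : ℚ) x, ψ i (q • x) = (q : ℝ) * ψ i x := by
    intro i q x
    simp only [ψ, map_smul, Pi.smul_apply, smul_eq_mul, Rat.cast_mul, Finset.mul_sum]
    apply Finset.sum_congr rfl
    intro j _
    ring
  let phi : Fin 3 → (K →ₗ[ℚ] ℂ) := fun i =>
    { toFun := fun x => ((ψ i x : ℝ) : ℂ)
      map_add' := fun x y => by rw [hψadd]; push_cast; rfl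
      map_smul' := fun q x => by
        rw [hψsmul, RingHom.id_apply, Rat.smul_def]
        push_cast
        rfl }
  choose a ha' using fun i => coeff_exists (phi i)
  have ha : ∀ i x, lf K (a i) x = ((ψ i x : ℝ) : ℂ) := fun i x => ha' i x
  -- the coordinate vectors
  choose e he using fun j : Fin 3 => hvsurj (Pi.single j (1 : ℚ))
  have hψe : ∀ i j, ψ i (e j) = g i j := by
    intro i j
    simp only [ψ, he]
    rw [Finset.sum_eq_single j]
    · simp
    · intro l _ hl
      simp [Pi.single_eq_of_ne hl]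
    · intro h
      exact absurd (Finset.mem_univ j) h
  have hli : LinearIndependent ℂ a := by
    rw [Fintype.linearIndependent_iff]
    intro c hc
    have h1 : Matrix.vecMul c (g.map (Complex.ofRealHom : ℝ →+* ℂ)) = 0 := by
      funext j
      have h2 : lf K (∑ k, c k • a k) (e j) = 0 := by
        rw [hc]
        simp [lf]
      rw [lf_sum] at h2
      simp only [ha, hψe] at h2
      exact h2
    have h3 : (g.map (Complex.ofRealHom : ℝ →+* ℂ)).det ≠ 0 := by
      rw [← RingHom.mapMatrix_apply, ← RingHom.map_det]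
      simpa using hg
    have h4 := Matrix.eq_zero_of_vecMul_eq_zero h3 h1
    intro i
    exact congr_fun h4 i
  have hreal : ∀ i, ∀ x : 𝓞 K, (lf K (a i) (x : K)).im = 0 := by
    intro i x
    rw [ha, Complex.ofReal_im]
  -- the support of the block
  let S : Finset (K →+* ℂ) := Finset.univ.filter fun σ => ∃ i ∈ I, a i σ ≠ 0
  have hS : ∀ σ, σ ∈ S ↔ ∃ i ∈ I, a i σ ≠ 0 := by
    intro σ
    simp [S]
  have hSI : I.card ≤ S.card := card_le_of_supported a hli I S (by
    intro i hi σ hσ
    by_contra h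
    exact hσ ((hS σ).mpr ⟨i, hi, h⟩))
  -- the action of `θ`
  have hψθ : ∀ i x, ψ i (θ * x)
      = ∑ l, Matrix.vecMul (g i) ((Ψ θ).map (Rat.cast : ℚ → ℝ)) l * ((vec x l : ℚ) : ℝ) := by
    intro i x
    simp only [ψ, hvmul, Matrix.vecMul, Matrix.mulVec, dotProduct, Matrix.map_apply]
    push_cast
    simp only [Finset.mul_sum, Finset.sum_mul]
    rw [Finset.sum_comm]
    apply Finset.sum_congr rfl
    intro l _
    apply Finset.sum_congr rfl
    intro j _
    ring
  have hstab : ∀ i ∈ I, (fun σ : K →+* ℂ => σ θ) * a i ∈ Submodule.span ℂ (a '' (I : Set (Fin 3))) := by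
    intro i hi
    have h1 := hinv i hi
    rw [Submodule.mem_span_image_finset_iff_exists_fun] at h1
    obtain ⟨r, hr⟩ := h1
    have h2 : (fun σ : K →+* ℂ => σ θ) * a i
        = ∑ k ∈ (Finset.univ : Finset I), ((r k : ℝ) : ℂ) • a k.1 := by
      apply lf_ext
      intro x
      rw [lf_sum Finset.univ (fun k : I => ((r k : ℝ) : ℂ)) (fun k : I => a k.1)]
      have h3 : lf K ((fun σ : K →+* ℂ => σ θ) * a i) x = lf K (a i) (θ * x) := by
        simp only [lf, Pi.mul_apply, map_mul]
        apply Finset.sum_congr rfl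
        intro σ _
        ring
      rw [h3, ha, hψθ, ← hr]
      simp only [ha]
      have h4 : ∑ l, (∑ k : I, r k • g k.1) l * ((vec x l : ℚ) : ℝ) = ∑ k : I, r k * ψ k.1 x := by
        simp only [Finset.sum_apply, Pi.smul_apply, smul_eq_mul, ψ, Finset.sum_mul, Finset.mul_sum]
        rw [Finset.sum_comm]
        apply Finset.sum_congr rfl
        intro k _
        apply Finset.sum_congr rfl
        intro l _
        ring
      rw [h4]
      push_cast
      rfl
    rw [h2]
    apply Submodule.sum_mem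
    intro k _
    exact Submodule.smul_mem _ _ (Submodule.subset_span ⟨k.1, k.2, rfl⟩)
  set W := Submodule.span ℂ (a '' (I : Set (Fin 3))) with hW
  have hWst : ∀ v ∈ W, (fun σ : K →+* ℂ => σ θ) * v ∈ W := by
    intro v hv
    induction hv using Submodule.span_induction with
    | mem v hv =>
      obtain ⟨i, hi, rfl⟩ := hv
      exact hstab i hi
    | zero => rw [mul_zero]; exact W.zero_mem
    | add v v' _ _ h h' => rw [mul_add]; exact W.add_mem h h'
    | smul c v _ h => rw [mul_smul_comm]; exact W.smul_mem c h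
  have hsing : ∀ σ ∈ S, Pi.single σ (1 : ℂ) ∈ W := by
    intro σ hσ
    obtain ⟨i, hi, hne⟩ := (hS σ).mp hσ
    exact single_mem_of_stable W _ hθ hWst (a i) (Submodule.subset_span ⟨i, hi, rfl⟩) σ hne
  have hIS : S.card ≤ I.card := by
    have hfr : finrank ℂ W ≤ I.card := by
      have h1 := finrank_span_finset_le_card (R := ℂ) (I.image a)
      rw [Finset.coe_image] at h1
      exact h1.trans Finset.card_image_le
    have hlis : LinearIndependent ℂ (fun σ : S => (⟨Pi.single σ.1 (1 : ℂ), hsing σ.1 σ.2⟩ : W)) := by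
      apply LinearIndependent.of_comp W.subtype
      have h1 := (Pi.basisFun ℂ (K →+* ℂ)).linearIndependent.comp (fun σ : S => σ.1)
        Subtype.val_injective
      convert h1 using 1
      funext σ
      simp
    have h2 := hlis.fintype_card_le_finrank
    rw [Fintype.card_coe] at h2
    exact h2.trans hfr
  have hcard : I.card = S.card := le_antisymm hSI hIS
  have hIle : I.card ≤ 2 := by
    have h1 : I.card < 3 := by
      have h2 := Finset.card_lt_univ_of_notMem (s := I) (x := (Classical.choose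
        (not_forall.mp fun h => hI1 (Finset.eq_univ_iff_forall.mpr h)))) (Classical.choose_spec
        (not_forall.mp fun h => hI1 (Finset.eq_univ_iff_forall.mpr h)))
      rwa [Fintype.card_fin] at h2
    omega
  have hIpos : 0 < I.card := Finset.card_pos.mpr hI0
  have hSc : ∀ i ∈ I, ∀ σ, σ ∉ S → a i σ = 0 := by
    intro i hi σ hσ
    by_contra h
    exact hσ ((hS σ).mpr ⟨i, hi, h⟩)
  have hshape : (∃ i, ∃ ρ : K →+* ℂ, ∀ σ, σ ≠ ρ → a i σ = 0) ∨
      (∃ i, ∃ ρ : K →+* ℂ, ∀ j, j ≠ i → a j ρ = 0) := by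
    rcases Nat.lt_or_ge I.card 2 with h | h
    · left
      have h1 : I.card = 1 := by omega
      have h2 : S.card = 1 := by omega
      obtain ⟨i, hi⟩ := Finset.card_eq_one.mp h1
      obtain ⟨ρ, hρ⟩ := Finset.card_eq_one.mp h2
      refine ⟨i, ρ, fun σ hσ => hSc i (by rw [hi]; exact Finset.mem_singleton_self i) σ ?_⟩
      rw [hρ, Finset.mem_singleton]
      exact hσ
    · right
      have h1 : I.card = 2 := by omega
      have h2 : Iᶜ.card = 1 := by
        rw [Finset.card_compl, Fintype.card_fin, h1]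
      have h3 : Sᶜ.card = 1 := by
        rw [Finset.card_compl, Embeddings.card K ℂ, hK, ← hcard, h1]
      obtain ⟨i, hi⟩ := Finset.card_eq_one.mp h2
      obtain ⟨ρ, hρ⟩ := Finset.card_eq_one.mp h3
      refine ⟨i, ρ, fun j hj => hSc j ?_ ρ ?_⟩
      · by_contra hcon
        apply hj
        rw [← Finset.mem_singleton, ← hi, Finset.mem_compl]
        exact hcon
      · rw [← Finset.mem_compl, hρ]
        exact Finset.mem_singleton_self ρ
  rcases rate_or_pure hK a (fun i φ => coeff_conj K (a i) (hreal i) φ) hli hshape with hrate | hpure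
  · left
    obtain ⟨κ, C, hκ, hC, hrate⟩ := hrate
    obtain ⟨b, hb0, hb⟩ := common_denominator vec
    have hbpos : (0 : ℝ) < |(b : ℝ)| := abs_pos.mpr (by exact_mod_cast hb0)
    -- coordinates as combinations of embeddings
    let crd : Fin 3 → (K →ₗ[ℚ] ℂ) := fun j =>
      { toFun := fun x => (((vec x j : ℚ) : ℝ) : ℂ)
        map_add' := fun x y => by
          rw [map_add, Pi.add_apply]
          push_cast
          rfl
        map_smul' := fun q x => by
          rw [map_smul, Pi.smul_apply, smul_eq_mul, RingHom.id_apply, Rat.smul_def]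
          push_cast
          rfl }
    choose w hw' using fun j => coeff_exists (crd j)
    have hw : ∀ j x, lf K (w j) x = (((vec x j : ℚ) : ℝ) : ℂ) := fun j x => hw' j x
    set B : ℝ := |(b : ℝ)| * ∑ j, ∑ φ, ‖w j φ‖ with hB
    have hB0 : 0 ≤ B := by
      apply mul_nonneg hbpos.le
      exact Finset.sum_nonneg fun j _ => Finset.sum_nonneg fun φ _ => norm_nonneg _
    set B' : ℝ := 1 + ∑ φ : K →+* ℂ, ∑ j, ‖φ (e j)‖ with hB'
    have hB'0 : 0 < B' := by
      have : 0 ≤ ∑ φ : K →+* ℂ, ∑ j, ‖φ (e j)‖ :=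
        Finset.sum_nonneg fun φ _ => Finset.sum_nonneg fun j _ => norm_nonneg _
      linarith
    -- elements and integer vectors
    have hx : ∀ ξ : 𝓞 K, ∃ x : Fin 3 → ℤ, (∀ j, (x j : ℝ) = (b : ℝ) * ((vec (ξ : K) j : ℚ) : ℝ)) ∧
        (∀ M : ℝ, (∀ φ : K →+* ℂ, ‖φ (ξ : K)‖ ≤ M) → ‖x‖ ≤ B * M) ∧
        (∀ φ : K →+* ℂ, |(b : ℝ)| * ‖φ (ξ : K)‖ ≤ B' * ‖x‖) := by
      intro ξ
      obtain ⟨z, hz⟩ := hb ξ
      have hzR : ∀ j, (z j : ℝ) = (b : ℝ) * ((vec (ξ : K) j : ℚ) : ℝ) := by
        intro j
        have := hz j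
        exact_mod_cast this.symm
      refine ⟨z, hzR, ?_, ?_⟩
      · intro M hM
        have hM0 : 0 ≤ M := by
          have φ : K →+* ℂ := Classical.choice inferInstance
          exact (norm_nonneg _).trans (hM φ)
        rw [pi_norm_le_iff_of_nonneg (mul_nonneg hB0 hM0)]
        intro j
        have h1 : ‖z j‖ = |(b : ℝ)| * ‖lf K (w j) (ξ : K)‖ := by
          rw [hw, Complex.norm_real, Real.norm_eq_abs, Int.norm_eq_abs, hzR, abs_mul]
        rw [h1, hB, mul_assoc]
        apply mul_le_mul_of_nonneg_left _ hbpos.le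
        calc ‖lf K (w j) (ξ : K)‖ ≤ ∑ φ, ‖w j φ * φ (ξ : K)‖ := norm_sum_le _ _
          _ ≤ ∑ φ, ‖w j φ‖ * M := by
              apply Finset.sum_le_sum
              intro φ _
              rw [norm_mul]
              exact mul_le_mul_of_nonneg_left (hM φ) (norm_nonneg _)
          _ = (∑ φ, ‖w j φ‖) * M := by rw [Finset.sum_mul]
          _ ≤ (∑ j, ∑ φ, ‖w j φ‖) * M := by
              apply mul_le_mul_of_nonneg_right _ hM0
              exact Finset.single_le_sum (f := fun j => ∑ φ, ‖w j φ‖)
                (fun j _ => Finset.sum_nonneg fun φ _ => norm_nonneg _) (Finset.mem_univ j)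
      · intro φ
        have h1 : (ξ : K) = ∑ j, (vec (ξ : K) j) • e j := by
          apply hvinj
          rw [map_sum]
          simp only [map_smul, he]
          funext l
          rw [Finset.sum_apply, Finset.sum_eq_single l]
          · simp
          · intro m _ hm
            simp [Pi.single_eq_of_ne hm.symm]
          · intro h
            exact absurd (Finset.mem_univ l) h
        have h2 : (b : ℂ) * φ (ξ : K) = ∑ j, ((z j : ℝ) : ℂ) * φ (e j) := by
          conv_lhs => rw [h1]
          rw [map_sum, Finset.mul_sum]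
          apply Finset.sum_congr rfl
          intro j _
          rw [Rat.smul_def, map_mul, map_ratCast, hzR]
          push_cast
          ring
        have h3 : |(b : ℝ)| * ‖φ (ξ : K)‖ = ‖(b : ℂ) * φ (ξ : K)‖ := by
          rw [norm_mul]
          congr 1
          simp
        rw [h3, h2]
        calc ‖∑ j, ((z j : ℝ) : ℂ) * φ (e j)‖ ≤ ∑ j, ‖((z j : ℝ) : ℂ) * φ (e j)‖ := norm_sum_le _ _
          _ ≤ ∑ j, ‖z‖ * ‖φ (e j)‖ := by
              apply Finset.sum_le_sum
              intro j _
              rw [norm_mul]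
              apply mul_le_mul_of_nonneg_right _ (norm_nonneg _)
              rw [Complex.norm_real, Real.norm_eq_abs, ← Int.norm_eq_abs]
              exact norm_le_pi_norm z j
          _ = (∑ j, ‖φ (e j)‖) * ‖z‖ := by rw [← Finset.mul_sum, mul_comm]
          _ ≤ B' * ‖z‖ := by
              apply mul_le_mul_of_nonneg_right _ (norm_nonneg _)
              have h4 : ∑ j, ‖φ (e j)‖ ≤ ∑ φ : K →+* ℂ, ∑ j, ‖φ (e j)‖ :=
                Finset.single_le_sum (f := fun φ : K →+* ℂ => ∑ j, ‖φ (e j)‖)
                  (fun φ _ => Finset.sum_nonneg fun j _ => norm_nonneg _) (Finset.mem_univ φ)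
              linarith
    refine ⟨|(b : ℝ)| ^ 3 * C * (|Real.log (B * C + 1)| + C), fun R => ?_⟩
    -- choose `n` large
    obtain ⟨N, hN⟩ := exists_nat_ge ((max R 0) * B' * C / (|(b : ℝ)| * κ))
    obtain ⟨n, hn, hn0, ξ, hx1, hx2, φ, hx3⟩ := hrate N
    obtain ⟨x, hxv, hxle, hxge⟩ := hx ξ
    have hnR : (0 : ℝ) < n := by exact_mod_cast hn0
    have hn1 : (1 : ℝ) ≤ n := by exact_mod_cast hn0
    have hNn : (N : ℝ) ≤ n := by exact_mod_cast hn
    refine ⟨x, ?_, ?_⟩
    · have h1 := hxge φ
      have h2 : κ * n / C ≤ ‖φ (ξ : K)‖ := by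
        refine le_trans ?_ hx3
        apply div_le_div_of_nonneg_right _ hC.le
        have := Real.add_one_le_exp (κ * n)
        linarith
      have h3 : |(b : ℝ)| * (κ * n / C) ≤ B' * ‖x‖ :=
        (mul_le_mul_of_nonneg_left h2 hbpos.le).trans h1
      have h4 : (max R 0) * B' * C ≤ n * (|(b : ℝ)| * κ) := by
        have h5 := hN.trans hNn
        rwa [div_le_iff₀ (by positivity)] at h5
      have h5 : (max R 0) * B' ≤ |(b : ℝ)| * (κ * n / C) := by
        rw [← mul_le_mul_iff_left₀ hC]
        calc (max R 0) * B' * C ≤ n * (|(b : ℝ)| * κ) := h4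
          _ = |(b : ℝ)| * (κ * n / C) * C := by field_simp
      have h6 : (max R 0) * B' ≤ ‖x‖ * B' := by
        rw [mul_comm ‖x‖]
        exact h5.trans h3
      exact (le_max_left R 0).trans (le_of_mul_le_mul_right h6 hB'0)
    · have h2 : ∏ i, ∑ j, g i j * (x j : ℝ) = (b : ℝ) ^ 3 * ∏ i, ψ i (ξ : K) := by
        have h3 : ∀ i, ∑ j, g i j * (x j : ℝ) = (b : ℝ) * ψ i (ξ : K) := by
          intro i
          simp only [ψ, Finset.mul_sum]
          apply Finset.sum_congr rfl
          intro j _
          rw [hxv]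
          ring
        simp only [h3]
        rw [Finset.prod_mul_distrib, Finset.prod_const, Finset.card_univ, Fintype.card_fin]
      have h3 : |∏ i, ∑ j, g i j * (x j : ℝ)| ≤ |(b : ℝ)| ^ 3 * (C / n) := by
        rw [h2, abs_mul, abs_pow]
        apply mul_le_mul_of_nonneg_left _ (by positivity)
        have h4 : |∏ i, ψ i (ξ : K)| = ‖∏ i, lf K (a i) (ξ : K)‖ := by
          simp only [ha]
          rw [← Complex.ofReal_prod, Complex.norm_real, Real.norm_eq_abs]
        rw [h4]
        exact hx1
      have h4 : ‖x‖ ≤ B * (C * Real.exp (C * n)) := hxle _ hx2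
      have h5 : Real.log ‖x‖ ≤ (|Real.log (B * C + 1)| + C) * n := by
        rcases eq_or_lt_of_le (norm_nonneg x) with h0 | h0
        · rw [← h0, Real.log_zero]
          positivity
        · have h6 : ‖x‖ ≤ (B * C + 1) * Real.exp (C * n) := by
            refine h4.trans ?_
            have := Real.exp_pos (C * n)
            nlinarith
          have h7 : Real.log ‖x‖ ≤ Real.log ((B * C + 1) * Real.exp (C * n)) :=
            Real.log_le_log h0 h6
          have hBC : 0 < B * C + 1 := by positivity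
          rw [Real.log_mul hBC.ne' (Real.exp_pos _).ne', Real.log_exp] at h7
          have h8 := le_abs_self (Real.log (B * C + 1))
          have h9 : |Real.log (B * C + 1)| ≤ |Real.log (B * C + 1)| * n :=
            le_mul_of_one_le_right (abs_nonneg _) hn1
          linarith
      calc |∏ i, ∑ j, g i j * (x j : ℝ)| * Real.log ‖x‖
          ≤ |∏ i, ∑ j, g i j * (x j : ℝ)| * ((|Real.log (B * C + 1)| + C) * n) :=
            mul_le_mul_of_nonneg_left h5 (abs_nonneg _)
        _ ≤ (|(b : ℝ)| ^ 3 * (C / n)) * ((|Real.log (B * C + 1)| + C) * n) :=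
            mul_le_mul_of_nonneg_right h3 (by positivity)
        _ = |(b : ℝ)| ^ 3 * C * (|Real.log (B * C + 1)| + C) := by
            field_simp
  · right
    -- the unique embedding of each row
    have hex : ∀ i, ∃ σ, a i σ ≠ 0 := by
      intro i
      by_contra hcon
      push Not at hcon
      exact hli.ne_zero i (funext hcon)
    choose f hf using hex
    have hzero : ∀ i σ, σ ≠ f i → a i σ = 0 := by
      intro i σ hσ
      by_contra h
      exact hσ (hpure i σ (f i) h (hf i))
    have hval : ∀ i x, ((ψ i x : ℝ) : ℂ) = a i (f i) * f i x := by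
      intro i x
      rw [← ha]
      unfold lf
      rw [Finset.sum_eq_single (f i)]
      · intro σ _ hσ
        rw [hzero i σ hσ, zero_mul]
      · intro h
        exact absurd (Finset.mem_univ _) h
    have hψ1 : ∀ i, ψ i 1 ≠ 0 := by
      intro i h
      have h1 := hval i 1
      rw [h, map_one, mul_one] at h1
      exact hf i (by simpa using h1.symm)
    let lam : Fin 3 → ℝ := fun i => ψ i θ / ψ i 1
    have hlam : ∀ i, ((lam i : ℝ) : ℂ) = f i θ := by
      intro i
      have h1 := hval i 1
      have h2 := hval i θ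
      rw [map_one, mul_one] at h1
      simp only [lam]
      push_cast
      rw [h1, h2]
      have := hf i
      field_simp
    refine ⟨lam, ?_, ?_⟩
    · intro i k hik
      have h1 : f i = f k := by
        apply hθ
        change f i θ = f k θ
        rw [← hlam, ← hlam, hik]
      by_contra hne
      have h2 := card_le_of_supported a hli {i, k} {f i} (by
        intro m hm σ hσ
        rw [Finset.mem_singleton] at hσ
        rw [Finset.mem_insert, Finset.mem_singleton] at hm
        rcases hm with rfl | rfl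
        · exact hzero _ σ hσ
        · rw [h1] at hσ
          exact hzero _ σ hσ)
      rw [Finset.card_pair hne, Finset.card_singleton] at h2
      omega
    · intro i
      funext j
      have h1 : ψ i (θ * e j) = lam i * ψ i (e j) := by
        have h2 : ((ψ i (θ * e j) : ℝ) : ℂ) = ((lam i * ψ i (e j) : ℝ) : ℂ) := by
          push_cast
          rw [hval, hlam, hval i (e j), map_mul]
          ring
        exact_mod_cast h2
      rw [hψθ, hψe, he] at h1
      rw [Finset.sum_eq_single j] at h1
      · simpa using h1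
      · intro l _ hl
        simp [Pi.single_eq_of_ne hl]
      · intro h
        exact absurd (Finset.mem_univ j) h

/-- The theorem with a rate, in terms of matrices. -/
theorem cubic_rate (g : Matrix (Fin 3) (Fin 3) ℝ) (hg : g.det ≠ 0)
    (T : Matrix (Fin 3) (Fin 3) ℤ) (hT : Irreducible (T.map (Int.cast : ℤ → ℚ)).charpoly)
    (I : Finset (Fin 3)) (hI0 : I.Nonempty) (hI1 : I ≠ Finset.univ)
    (hinv : ∀ i ∈ I, Matrix.vecMul (g i) (T.map (Int.cast : ℤ → ℝ))
        ∈ Submodule.span ℝ (g '' (I : Set (Fin 3)))) :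
    (∃ C : ℝ, ∀ R : ℝ, ∃ x : Fin 3 → ℤ, R ≤ ‖x‖ ∧
      |∏ i, ∑ j, g i j * (x j : ℝ)| * Real.log ‖x‖ ≤ C) ∨
    ∃ lam : Fin 3 → ℝ, Function.Injective lam ∧
      ∀ i, Matrix.vecMul (g i) (T.map (Int.cast : ℤ → ℝ)) = lam i • g i := by
  obtain ⟨K, _, _, Ψ, θ, hK, hΨ, hθ⟩ := field_of_matrix 3 _ hT
  have hcast : (Ψ θ).map (Rat.cast : ℚ → ℝ) = T.map (Int.cast : ℤ → ℝ) := by
    rw [hΨ]
    ext i j
    simp
  have hmain := main_rate hK Ψ g hg I hI0 hI1 θ hθ (by rw [hcast]; exact hinv)
  rwa [hcast] at hmain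

end Pool.Agent.H46.Rate
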